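import Mathlib
import Pool.Agent.Helper73.RK.Config

/-!
# Residue classes meeting in few points: definitions of the two scale argument

The points `(t / p, t a(p) / p)` of the torus, `p` a prime of a short interval, `1 ≤ t < p`; two
points are partners when their residue classes meet and `t q` is small modulo `p`.
-/

set_option autoImplicit false

namespace Pool.Agent.Helper69.TS

open Finset Pool.Agent.Helper73.RK

/-- The set of residues `W` is equidistributed modulo `p`, in mean square with weights. -/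
def Spec (p : ℕ) (W : Finset ℕ) (κ : ℝ) : Prop :=
  ∀ g : ℕ → ℝ, ∑ t ∈ Ico 1 p, ((∑ u ∈ Ico 1 p, if t * u % p ∈ W then g u else 0) -
    (W.card : ℝ) / ((p : ℝ) - 1) * ∑ u ∈ Ico 1 p, g u) ^ 2 ≤
      κ * (W.card : ℝ) ^ 2 * ∑ u ∈ Ico 1 p, g u ^ 2

/-- A point of the torus: a modulus and a residue. -/
abbrev Pt : Type := Σ _ : ℕ, ℕ

/-- A block of residues. -/
def blk (v b : ℕ) : Finset ℕ := Ioc (b * v) ((b + 1) * v)

/-- The partner of the point `(p, t)` with modulus `q`. -/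
def mate (p t q : ℕ) : Pt := ⟨q, t * q / p⟩

/-- The data of the argument: the moduli `P`, exceptional moduli `B`, the residues `a`, the meeting
points `nn`, the weights `f`, the length `N`, the size `Q` of the moduli, the ratio `8 m` of two
consecutive scales, and the degree `E`. -/
structure Cfg where
  P : Finset ℕ
  B : Finset ℕ
  a : ℕ → ℤ
  nn : ℕ → ℕ → ℤ
  f : ℕ → ℕ → ℝ
  N : ℕ
  Q : ℕ
  m : ℕ
  E : ℝ

namespace Cfg

variable (c : Cfg)

/-- The spectral bound. -/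
noncomputable def κ : ℝ := c.E / (c.Q * (8 * c.m))

/-- The points. -/
def F : Finset Pt := c.P.sigma (fun p => Ico 1 p)

/-- The first coordinate. -/
noncomputable def X (s : Pt) : ℝ := (s.2 : ℝ) / s.1

/-- The second coordinate (modulo one). -/
noncomputable def Y (s : Pt) : ℝ := (s.2 : ℝ) * c.a s.1 / s.1

/-- Closeness at scale `w`. -/
def Near (w : ℝ) (s s' : Pt) : Prop :=
  |X s - X s'| ≤ w / (c.Q : ℝ) ^ 2 ∧ ∃ k : ℤ, |c.Y s - c.Y s' - k| ≤ w * c.N / (c.Q : ℝ) ^ 2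

open Classical in
/-- The number of points close to `s`. -/
noncomputable def pop (w : ℝ) (s : Pt) : ℕ := (c.F.filter (fun s' => c.Near w s s')).card

/-- The weighted number of partners with residue in `W`. -/
noncomputable def V (W : Finset ℕ) (p t : ℕ) : ℝ :=
  ∑ q ∈ c.P, if t * q % p ∈ W then c.f p q else 0

/-- The union of the blocks. -/
def W (v : ℕ) : Finset ℕ := Ioc (c.m * v) (2 * c.m * v)

/-- The conditions on the data. -/
structure Good : Prop where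
  hprime : ∀ p ∈ c.P, p.Prime
  hlow : ∀ p ∈ c.P, c.Q ≤ p
  hup : ∀ p ∈ c.P, 8 * c.m * p ≤ (8 * c.m + 1) * c.Q
  hm : 2 ≤ c.m
  hQ : 64 * c.m ≤ c.Q
  hne : c.P.Nonempty
  hE : 0 < c.E
  f0 : ∀ p q, 0 ≤ c.f p q
  f1 : ∀ p q, c.f p q ≤ 1
  fsymm : ∀ p ∈ c.P, ∀ q ∈ c.P, c.f p q = c.f q p
  fdiag : ∀ p, c.f p p = 0
  fmeet : ∀ p ∈ c.P, ∀ q ∈ c.P, c.f p q ≠ 0 → Meet c.a c.N p q (c.nn p q)
  degU : ∀ p ∈ c.P, ∑ q ∈ c.P, c.f p q ≤ 2 * c.E
  degC : ∀ p ∈ c.P, ∀ j : ℕ,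
    ∑ q ∈ c.P.filter (fun q => (c.nn p q).toNat * (8 * c.m) / c.N = j), c.f p q ≤
      3 * c.E / (8 * c.m)
  degL : ∀ p ∈ c.P, p ∉ c.B → c.E / 16 ≤ ∑ q ∈ c.P, c.f p q
  hBP : c.B ⊆ c.P
  hBcard : c.B.card * (8 * c.m) ≤ c.P.card

/-- Equidistribution of the blocks of length `v`. -/
def SpecAt (v : ℕ) : Prop :=
  ∀ p ∈ c.P, p ∉ c.B → ∀ b ∈ Ico c.m (2 * c.m), Spec p (blk v b) c.κ

/-- The conditions on the scales `2 u (8 m) ^ j`, `j ≤ J`. -/
structure Scales (u J : ℕ) : Prop where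
  hu : 1 ≤ u
  hN : 2 * u * (8 * c.m) ^ J * c.N ≤ c.Q * c.Q
  hQ : 2 * (2 * u * (8 * c.m) ^ J) ≤ c.Q
  base : ∀ p ∈ c.P, p ∉ c.B → Spec p (Ioc u (2 * u)) c.κ
  blocks : ∀ j < J, c.SpecAt (2 * u * (8 * c.m) ^ j)

/-- The weighted number of pairs of partners of `(p, t)` which are themselves close. -/
noncomputable def Coll (v p t : ℕ) : ℝ :=
  ∑ q ∈ c.P, ∑ r ∈ c.P, if t * q % p ∈ c.W v ∧ t * r % p ∈ c.W v ∧
    |((t * q % p : ℕ) : ℝ) - ((t * r % p : ℕ) : ℝ)| ≤ 3 * v ∧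
    |(c.nn p q : ℝ) - c.nn p r| * (8 * c.m) ≤ 40 * c.N then c.f p q * c.f p r else 0

end Cfg

end Pool.Agent.Helper69.TS
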