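import Mathlib
import Pool.Agent.Helper69.TS.Defs
import Pool.Agent.Helper64.AS.Defs
import Pool.Agent.Helper73.RK.Primes

/-!
# The two scale argument: statements of the modules

`S_...` are the statements of the modules of the project `MP_d7f79e_TS`.
-/

set_option autoImplicit false

open Finset Pool.Agent.Helper73.RK Pool.Agent.Helper64.AS

namespace Pool.Agent.Helper69.TS

/-! ### M1: additive large sieve -/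

def S_lsieve : Prop :=
  ∀ (ι : Type) (R : Finset ι) (x : ι → ℝ) (δ : ℝ) (Z : ℕ), 0 < δ → 1 ≤ δ * Z →
    (∀ r ∈ R, ∀ s ∈ R, r ≠ s → ∀ k : ℤ, δ ≤ |x r - x s - k|) → ∀ A : ℕ → ℂ,
    ∑ r ∈ R, ‖∑ n ∈ range Z, A n * ee (n * x r)‖ ^ 2 ≤ 60 * Z * ∑ n ∈ range Z, ‖A n‖ ^ 2

/-! ### M2: large sieve for characters -/

open Classical in
def S_csieve : Prop :=
  ∀ (P : Finset ℕ) (Q Z : ℕ), 1 ≤ Q → (∀ p ∈ P, p.Prime ∧ p ≤ 2 * Q) → 4 * Q ^ 2 ≤ Z →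
    ∀ A : ℕ → ℂ, ∑ p ∈ P, ∑ χ : DirichletCharacter ℂ p, (if χ = 1 then 0 else
      ‖∑ n ∈ range Z, A n * χ (n : ZMod p)‖ ^ 2) ≤ 60 * Z * ∑ n ∈ range Z, ‖A n‖ ^ 2

/-! ### M3: equidistribution from character sums -/

def S_spec_of_char : Prop :=
  ∀ (p : ℕ) (W : Finset ℕ) (κ : ℝ), p.Prime → 0 ≤ κ → (∀ w ∈ W, 1 ≤ w ∧ w < p) →
    (∀ χ : DirichletCharacter ℂ p, χ ≠ 1 →
      ‖∑ w ∈ W, χ (w : ZMod p)‖ ^ 2 ≤ κ * (W.card : ℝ) ^ 2) → Spec p W κ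

open Classical in
def S_spec_bad : Prop :=
  ∀ (P : Finset ℕ) (Q : ℕ) (W : Finset ℕ) (H l : ℕ) (κ : ℝ) (D : ℕ), 1 ≤ Q →
    (∀ p ∈ P, p.Prime ∧ Q ≤ p ∧ p ≤ 2 * Q) → (∀ w ∈ W, 1 ≤ w ∧ w ≤ H) → H < Q → 1 ≤ l →
    0 < κ → (∀ n : ℕ, n ≠ 0 → n ≤ H ^ l → n.divisors.card ≤ D) →
    ((P.filter (fun p => ¬ Spec p W κ)).card : ℝ) * (κ * W.card) ^ l ≤
      60 * ((H : ℝ) ^ l + 4 * (Q : ℝ) ^ 2) * (D : ℝ) ^ l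

/-! ### M4: use of the equidistribution -/

def S_var_le : Prop :=
  ∀ c : Cfg, c.Good → ∀ p ∈ c.P, ∀ (W : Finset ℕ) (κ : ℝ), Spec p W κ → ∀ g : ℕ → ℝ, g p = 0 →
    ∑ t ∈ Ico 1 p, ((∑ q ∈ c.P, if t * q % p ∈ W then g q else 0) -
      (W.card : ℝ) / ((p : ℝ) - 1) * ∑ q ∈ c.P, g q) ^ 2 ≤
        κ * (W.card : ℝ) ^ 2 * ∑ q ∈ c.P, g q ^ 2

def S_sum_V : Prop :=
  ∀ c : Cfg, c.Good → ∀ p ∈ c.P, ∀ W : Finset ℕ, (∀ w ∈ W, 1 ≤ w ∧ w < p) →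
    ∀ g : ℕ → ℝ, g p = 0 →
    ∑ t ∈ Ico 1 p, (∑ q ∈ c.P, if t * q % p ∈ W then g q else 0) = W.card * ∑ q ∈ c.P, g q

def S_sq_le : Prop :=
  ∀ c : Cfg, c.Good → ∀ p ∈ c.P, ∀ (W : Finset ℕ) (κ : ℝ), (∀ w ∈ W, 1 ≤ w ∧ w < p) → 0 ≤ κ →
    Spec p W κ → ∀ g : ℕ → ℝ, g p = 0 → (∀ q, 0 ≤ g q) → (∀ q, g q ≤ 1) →
    ∑ t ∈ Ico 1 p, (∑ q ∈ c.P, if t * q % p ∈ W then g q else 0) ^ 2 ≤
      (W.card : ℝ) ^ 2 * ((∑ q ∈ c.P, g q) ^ 2 / ((p : ℝ) - 1) + κ * ∑ q ∈ c.P, g q)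

def S_spec_union : Prop :=
  ∀ (p m v : ℕ) (κ : ℝ), (∀ b ∈ Ico m (2 * m), Spec p (blk v b) κ) →
    Spec p (Ioc (m * v) (2 * m * v)) κ

/-! ### M5: geometry -/

def S_mate_mem : Prop :=
  ∀ c : Cfg, c.Good → ∀ p ∈ c.P, ∀ t ∈ Ico 1 p, ∀ q ∈ c.P, c.f p q ≠ 0 → t * q % p < c.Q →
    mate p t q ∈ c.F

def S_mate_near : Prop :=
  ∀ c : Cfg, c.Good → ∀ p ∈ c.P, ∀ t ∈ Ico 1 p, ∀ q ∈ c.P, c.f p q ≠ 0 → ∀ w : ℝ,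
    ((t * q % p : ℕ) : ℝ) ≤ w → c.Near w ⟨p, t⟩ (mate p t q)

def S_near : Prop :=
  ∀ c : Cfg, (∀ (w : ℝ) (s s' : Pt), c.Near w s s' → c.Near w s' s) ∧
    (∀ (w w' : ℝ) (s s' s'' : Pt), c.Near w s s' → c.Near w' s' s'' → c.Near (w + w') s s'') ∧
    (∀ (w w' : ℝ) (s s' : Pt), w ≤ w' → c.Near w s s' → c.Near w' s s')

def S_geom : Prop :=
  ∀ c : Cfg, c.Good → ∀ p ∈ c.P, ∀ t ∈ Ico 1 p, ∀ q ∈ c.P, ∀ r ∈ c.P, ∀ v : ℕ,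
    c.f p q ≠ 0 → c.f p r ≠ 0 → 1 ≤ v → v * (8 * c.m) * c.N ≤ c.Q * c.Q →
    t * q % p ∈ c.W v → t * r % p ∈ c.W v → c.Near (2 * v) (mate p t q) (mate p t r) →
    |((t * q % p : ℕ) : ℝ) - ((t * r % p : ℕ) : ℝ)| ≤ 3 * v ∧
      |(c.nn p q : ℝ) - c.nn p r| * (8 * c.m) ≤ 40 * c.N

/-! ### M6: partners in an exceptional set -/

def S_exc : Prop :=
  ∀ c : Cfg, c.Good → ∀ W : Finset ℕ, (∀ w ∈ W, 1 ≤ w ∧ w < c.Q) →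
    (∀ p ∈ c.P, p ∉ c.B → Spec p W c.κ) → ∀ X : Finset Pt, X ⊆ c.F →
    ∑ s ∈ c.F, (∑ q ∈ c.P, if s.2 * q % s.1 ∈ W ∧ mate s.1 s.2 q ∈ X then c.f s.1 q else 0) ≤
      2 * c.E * W.card * c.B.card +
        Real.sqrt (5 * X.card * c.P.card / c.Q) * (W.card * c.E)

/-! ### M7: close pairs of partners -/

def S_coll : Prop :=
  ∀ c : Cfg, c.Good → ∀ p ∈ c.P, p ∉ c.B → ∀ v : ℕ, 1 ≤ v → 2 * (v * (8 * c.m)) ≤ c.Q →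
    (∀ b ∈ Ico c.m (2 * c.m), Spec p (blk v b) c.κ) →
    ∑ t ∈ Ico 1 p, c.Coll v p t ≤ 1000 * (v : ℝ) ^ 2 * c.E ^ 2 / c.Q

/-! ### M8: the step between two scales -/

def S_base : Prop :=
  ∀ c : Cfg, c.Good → ∀ u : ℕ, 1 ≤ u → 2 * (2 * u) ≤ c.Q →
    (∀ p ∈ c.P, p ∉ c.B → Spec p (Ioc u (2 * u)) c.κ) → ∀ γ : ℝ,
    4000 ≤ γ * (8 * c.m) → (c.B.card : ℝ) ≤ γ * c.P.card →
    ((c.F.filter (fun s => (c.pop (2 * u) s : ℝ) < u * c.E / (32 * c.Q))).card : ℝ) ≤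
      3 * γ * c.F.card

def S_step : Prop :=
  ∀ c : Cfg, c.Good → ∀ v : ℕ, 1 ≤ v → v * (8 * c.m) * c.N ≤ c.Q * c.Q →
    2 * (v * (8 * c.m)) ≤ c.Q → c.SpecAt v → ∀ γ A : ℝ, 0 < γ →
    4000 ≤ γ * (8 * c.m) → (c.B.card : ℝ) ≤ γ * c.P.card →
    ((c.F.filter (fun s => (c.pop v s : ℝ) < A)).card : ℝ) ≤ γ ^ 2 * c.F.card →
    ((c.F.filter (fun s => (c.pop (v * (8 * c.m)) s : ℝ) <
      γ * A * (8 * c.m) ^ 2 / (3 * 10 ^ 8))).card : ℝ) ≤ 300 * γ * c.F.card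

/-! ### M9: the total population -/

def S_sum_pop : Prop :=
  ∀ c : Cfg, c.Good → ∀ w : ℝ, 1 ≤ w → 2 * w ≤ c.Q →
    ∑ s ∈ c.F, (c.pop w s : ℝ) ≤ 6 * w * c.F.card

/-! ### M10: the core -/

def S_core : Prop :=
  ∀ J : ℕ, ∃ (C : ℝ) (m₀ : ℕ), ∀ (c : Cfg) (u : ℕ), c.Good → c.Scales u J →
    m₀ ≤ c.m → c.E * (8 * c.m : ℝ) ^ J ≤ C * c.Q

/-! ### M11: construction of the data -/

/-- The primes of a short interval. -/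
def PP (R m Q : ℕ) : Finset ℕ :=
  (dyadic (R - 1)).filter (fun p => Q ≤ p ∧ 8 * m * p ≤ (8 * m + 1) * Q)

def S_interval : Prop :=
  ∀ R m : ℕ, 1 ≤ m → 8 * m ≤ R → 3 ≤ R → ∃ Q : ℕ, R ≤ Q ∧ Q ≤ 3 * R ∧
    (dyadic (R - 1)).card ≤ 8 * m * (PP R m Q).card

open Classical in
/-- The weights. -/
noncomputable def wt (P : Finset ℕ) (a : ℕ → ℤ) (N ρ p q : ℕ) : ℝ :=
  if p ∈ P ∧ q ∈ P ∧ p ≠ q ∧ (∃ n, Meet a N p q n) ∧ ρ ≤ (AA P a (pt a N p q)).card then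
    (ρ : ℝ) / (AA P a (pt a N p q)).card else 0

/-- The points of low multiplicity of a residue class. -/
noncomputable def light (P : Finset ℕ) (a : ℕ → ℤ) (N ρ p : ℕ) : Finset ℤ :=
  (Icc (1 : ℤ) N).filter (fun n => (p : ℤ) ∣ n - a p ∧ (AA P a n).card < ρ)

def S_light : Prop :=
  ∀ (P : Finset ℕ) (a : ℕ → ℤ) (N ρ : ℕ), ∑ p ∈ P, (light P a N ρ p).card ≤
    ρ * ((Icc (1 : ℤ) N).filter (fun n => (AA P a n).Nonempty)).card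

def S_build : Prop :=
  ∀ (P B : Finset ℕ) (a : ℕ → ℤ) (N Q m ρ : ℕ), 2 ≤ m → 2 ≤ ρ → 64 * m ≤ Q →
    (∀ p ∈ P, p.Prime ∧ Q ≤ p ∧ 8 * m * p ≤ (8 * m + 1) * Q) → P.Nonempty → N ≤ Q * Q →
    8 * m * Q ≤ N → B ⊆ P → B.card * (8 * m) ≤ P.card →
    (∀ p ∈ P, p ∉ B → (light P a N ρ p).card * (4 * Q) ≤ N) →
    Cfg.Good { P := P, B := B, a := a, nn := pt a N, f := wt P a N ρ, N := N, Q := Q, m := m, E := (ρ : ℝ) * N / Q }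

/-! ### M12: the main theorem in integers -/

def S_main_int : Prop :=
  ∀ n r s h l i₀ : ℕ, 1 ≤ l → h + 2 * n = s + 2 * r + 12 → s + 7 ≤ n → r + 5 ≤ n →
    l * (h + 5) + 12 ≤ r → r + 19 + l * (h + 6) ≤ l * i₀ → i₀ + h + n + 3 ≤ 2 * r →
    ∃ X₀ : ℕ, ∀ x : ℕ, X₀ ≤ x → ∀ (N R : ℕ) (a : ℕ → ℤ),
      x ^ n ≤ N → N ≤ x ^ (n + 1) → x ^ r ≤ R → R ≤ x ^ (r + 2) →
      x ^ s < ((Icc (1 : ℤ) N).filter (fun n => (AA (dyadic (R - 1)) a n).Nonempty)).card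

end Pool.Agent.Helper69.TS
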