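import Mathlib
import Pool.Agent.Helper69.TS.Stmts

/-!
# Simple facts about the data
-/

set_option autoImplicit false

open Finset Pool.Agent.Helper73.RK

namespace Pool.Agent.Helper69.TS

variable {c : Cfg}

namespace Cfg.Good

lemma mR (hc : c.Good) : (2 : ℝ) ≤ c.m := by exact_mod_cast hc.hm

lemma Q128 (hc : c.Good) : 128 ≤ c.Q := by
  have := hc.hm
  have := hc.hQ
  omega

lemma QR (hc : c.Good) : (128 : ℝ) ≤ c.Q := by exact_mod_cast hc.Q128

lemma QmR (hc : c.Good) : 64 * (c.m : ℝ) ≤ c.Q := by exact_mod_cast hc.hQ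

lemma ple (hc : c.Good) {p : ℕ} (hp : p ∈ c.P) : (p : ℝ) ≤ 17 / 16 * c.Q := by
  have h1 : (8 * c.m * p : ℝ) ≤ (8 * c.m + 1) * c.Q := by exact_mod_cast hc.hup p hp
  have h2 := hc.mR
  have h3 := hc.QR
  have h4 : (8 * c.m : ℝ) * p ≤ (8 * c.m : ℝ) * (17 / 16 * c.Q) := by nlinarith
  exact le_of_mul_le_mul_left h4 (by linarith)

lemma leP (hc : c.Good) {p : ℕ} (hp : p ∈ c.P) : (c.Q : ℝ) ≤ p := by
  exact_mod_cast hc.hlow p hp

lemma pge (hc : c.Good) {p : ℕ} (hp : p ∈ c.P) : 128 ≤ p := hc.Q128.trans (hc.hlow p hp)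

lemma pR (hc : c.Good) {p : ℕ} (hp : p ∈ c.P) : (128 : ℝ) ≤ p := by exact_mod_cast hc.pge hp

lemma card_pos (hc : c.Good) : (0 : ℝ) < c.P.card := by
  exact_mod_cast Finset.card_pos.2 hc.hne

lemma κ_pos (hc : c.Good) : 0 < c.κ := by
  have h1 := hc.hE
  have h2 := hc.QR
  have h3 := hc.mR
  unfold Cfg.κ
  positivity

lemma sum_f_sq (hc : c.Good) (p : ℕ) (S : Finset ℕ) :
    ∑ q ∈ S, c.f p q ^ 2 ≤ ∑ q ∈ S, c.f p q := by
  refine Finset.sum_le_sum fun q _ => ?_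
  have h0 := hc.f0 p q
  have h1 := hc.f1 p q
  nlinarith

end Cfg.Good

lemma mem_F {s : Pt} : s ∈ c.F ↔ s.1 ∈ c.P ∧ 1 ≤ s.2 ∧ s.2 < s.1 := by
  unfold Cfg.F
  rw [Finset.mem_sigma, Finset.mem_Ico]

lemma sum_F (g : Pt → ℝ) : ∑ s ∈ c.F, g s = ∑ p ∈ c.P, ∑ t ∈ Ico 1 p, g ⟨p, t⟩ := by
  unfold Cfg.F
  rw [Finset.sum_sigma]

lemma card_F_filter (r : Pt → Prop) [DecidablePred r] :
    ((c.F.filter r).card : ℝ) = ∑ p ∈ c.P, (((Ico 1 p).filter (fun t => r ⟨p, t⟩)).card : ℝ) := by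
  rw [Finset.card_filter]
  push_cast
  rw [sum_F]
  refine Finset.sum_congr rfl fun p _ => ?_
  rw [Finset.card_filter]
  push_cast
  rfl

lemma card_F_lower (hc : c.Good) : (c.P.card : ℝ) * ((c.Q : ℝ) - 1) ≤ c.F.card := by
  have h1 : (c.F.card : ℝ) = ∑ p ∈ c.P, ((p : ℝ) - 1) := by
    unfold Cfg.F
    rw [Finset.card_sigma]
    push_cast
    refine Finset.sum_congr rfl fun p hp => ?_
    rw [Nat.card_Ico, Nat.cast_sub (by have := hc.pge hp; omega), Nat.cast_one]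
  rw [h1, ← nsmul_eq_mul, ← Finset.sum_const]
  refine Finset.sum_le_sum fun p hp => ?_
  have := hc.leP hp
  linarith

lemma card_F_upper (hc : c.Good) : (c.F.card : ℝ) ≤ c.P.card * (17 / 16 * c.Q) := by
  have h1 : (c.F.card : ℝ) = ∑ p ∈ c.P, ((p : ℝ) - 1) := by
    unfold Cfg.F
    rw [Finset.card_sigma]
    push_cast
    refine Finset.sum_congr rfl fun p hp => ?_
    rw [Nat.card_Ico, Nat.cast_sub (by have := hc.pge hp; omega), Nat.cast_one]
  rw [h1, ← nsmul_eq_mul, ← Finset.sum_const]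
  refine Finset.sum_le_sum fun p hp => ?_
  have := hc.ple hp
  linarith

/-- Few residues have few partners. -/
lemma few_low (hvar : S_var_le) (hc : c.Good) {p : ℕ} (hp : p ∈ c.P) (hpB : p ∉ c.B)
    {W : Finset ℕ} (hs : Spec p W c.κ) (hW : 1 ≤ W.card) :
    (((Ico 1 p).filter (fun t => c.V W p t < W.card * c.E / (32 * c.Q))).card : ℝ) ≤
      2700 * c.Q / (8 * c.m) := by
  have hv := hvar c hc p hp W c.κ hs (c.f p) (hc.fdiag p)
  have hE := hc.hE
  have hQ := hc.QR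
  have hm := hc.mR
  have hp' := hc.ple hp
  have hp1 := hc.pR hp
  have hd := hc.degL p hp hpB
  have hd2 := hc.degU p hp
  have hsq := hc.sum_f_sq p c.P
  set d : ℝ := ∑ q ∈ c.P, c.f p q with hd0
  have hWR : (1 : ℝ) ≤ W.card := by exact_mod_cast hW
  set K : ℝ := (W.card : ℝ) with hK
  have hmean : K * c.E / (17 * c.Q) ≤ K / ((p : ℝ) - 1) * d := by
    rw [div_mul_eq_mul_div, div_le_div_iff₀ (by positivity) (by linarith)]
    have h1 : (p : ℝ) - 1 ≤ 17 / 16 * c.Q := by linarith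
    have h2 : c.E * ((p : ℝ) - 1) ≤ d * (17 * c.Q) := by
      calc c.E * ((p : ℝ) - 1) ≤ c.E * (17 / 16 * c.Q) := mul_le_mul_of_nonneg_left h1 hE.le
        _ = (c.E / 16) * (17 * c.Q) := by ring
        _ ≤ d * (17 * c.Q) := mul_le_mul_of_nonneg_right hd (by positivity)
    nlinarith
  set S := (Ico 1 p).filter (fun t => c.V W p t < K * c.E / (32 * c.Q)) with hS
  have h3 : (S.card : ℝ) * (15 / 544 * (K * c.E / c.Q)) ^ 2 ≤ c.κ * K ^ 2 * (2 * c.E) := by
    calc (S.card : ℝ) * (15 / 544 * (K * c.E / c.Q)) ^ 2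
        = ∑ t ∈ S, (15 / 544 * (K * c.E / c.Q)) ^ 2 := by rw [Finset.sum_const, nsmul_eq_mul]
      _ ≤ ∑ t ∈ S, ((∑ q ∈ c.P, if t * q % p ∈ W then c.f p q else 0) - K / ((p : ℝ) - 1) * d) ^ 2 := by
          refine Finset.sum_le_sum fun t ht => ?_
          have h4 := (Finset.mem_filter.1 ht).2
          unfold Cfg.V at h4
          have h5 : K * c.E / (17 * c.Q) = 1 / 17 * (K * c.E / c.Q) := by field_simp
          have h6 : K * c.E / (32 * c.Q) = 1 / 32 * (K * c.E / c.Q) := by field_simp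
          rw [h5] at hmean
          rw [h6] at h4
          have h7 : 0 ≤ K * c.E / c.Q := by positivity
          have h8 : 15 / 544 * (K * c.E / c.Q) ≤
              K / ((p : ℝ) - 1) * d - (∑ q ∈ c.P, if t * q % p ∈ W then c.f p q else 0) := by
            linarith
          have h9 := pow_le_pow_left₀ (by positivity) h8 2
          calc _ ≤ _ := h9
            _ = _ := by ring
      _ ≤ ∑ t ∈ Ico 1 p, ((∑ q ∈ c.P, if t * q % p ∈ W then c.f p q else 0) - K / ((p : ℝ) - 1) * d) ^ 2 :=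
          Finset.sum_le_sum_of_subset_of_nonneg (Finset.filter_subset _ _) fun _ _ _ => sq_nonneg _
      _ ≤ c.κ * K ^ 2 * ∑ q ∈ c.P, c.f p q ^ 2 := hv
      _ ≤ c.κ * K ^ 2 * (2 * c.E) :=
          mul_le_mul_of_nonneg_left (hsq.trans hd2) (by have := hc.κ_pos; positivity)
  have h10 : c.κ * K ^ 2 * (2 * c.E) = (2 * (544 / 15) ^ 2 * c.Q / (8 * c.m)) *
      (15 / 544 * (K * c.E / c.Q)) ^ 2 := by
    unfold Cfg.κ
    field_simp
  rw [h10] at h3
  have h11 := le_of_mul_le_mul_right h3 (by positivity)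
  refine h11.trans ?_
  rw [div_le_div_iff_of_pos_right (by positivity)]
  refine mul_le_mul_of_nonneg_right ?_ (by positivity)
  norm_num

/-- The weighted number of partners is at most the number of close points. -/
lemma V_le_pop (hmem : S_mate_mem) (hnear : S_mate_near) (hc : c.Good) {p t : ℕ} (hp : p ∈ c.P)
    (ht : t ∈ Ico 1 p) {W : Finset ℕ} {w : ℕ} (hw : w < c.Q) (hW : ∀ x ∈ W, x ≤ w) :
    c.V W p t ≤ c.pop w ⟨p, t⟩ := by
  classical
  unfold Cfg.V Cfg.pop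
  have h1 : ∑ q ∈ c.P, (if t * q % p ∈ W then c.f p q else 0) ≤
      ∑ q ∈ c.P.filter (fun q => t * q % p ∈ W ∧ c.f p q ≠ 0), (1 : ℝ) := by
    rw [Finset.sum_filter]
    refine Finset.sum_le_sum fun q _ => ?_
    by_cases h2 : t * q % p ∈ W
    · by_cases h3 : c.f p q = 0
      · rw [if_pos h2, if_neg (fun h => h.2 h3), h3]
      · rw [if_pos h2, if_pos ⟨h2, h3⟩]
        exact hc.f1 p q
    · rw [if_neg h2, if_neg (fun h => h2 h.1)]
  refine h1.trans ?_
  rw [Finset.sum_const, nsmul_eq_mul, mul_one]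
  have h4 : (c.P.filter (fun q => t * q % p ∈ W ∧ c.f p q ≠ 0)).card ≤
      (c.F.filter (fun s' => c.Near w ⟨p, t⟩ s')).card := by
    refine Finset.card_le_card_of_injOn (fun q => mate p t q) ?_ ?_
    · intro q hq
      have hq := Finset.mem_coe.1 hq
      obtain ⟨hq1, hq2, hq3⟩ := Finset.mem_filter.1 hq
      have hle := hW _ hq2
      refine Finset.mem_coe.2 (Finset.mem_filter.2 ⟨hmem c hc p hp t ht q hq1 hq3 (by omega), ?_⟩)
      exact hnear c hc p hp t ht q hq1 hq3 w (by exact_mod_cast hle)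
    · intro q _ q' _ h
      simp only [mate, Sigma.mk.injEq] at h
      exact h.1
  exact_mod_cast h4

end Pool.Agent.Helper69.TS
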