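import Mathlib
import Pool.Agent.Helper69.TS.Basic

/-!
# The induction over the scales
-/

set_option autoImplicit false

open Finset Pool.Agent.Helper73.RK

namespace Pool.Agent.Helper69.TS

lemma B_le {c : Cfg} (hc : c.Good) {γ : ℝ} (hγM : 4000 ≤ γ * (8 * c.m)) :
    (c.B.card : ℝ) ≤ γ * c.P.card := by
  have h1 : (c.B.card : ℝ) * (8 * c.m) ≤ c.P.card := by exact_mod_cast hc.hBcard
  have hm := hc.mR
  have hγ : 0 < γ := by
    by_contra h'
    push Not at h'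
    nlinarith
  have h2 : (0 : ℝ) ≤ c.B.card := Nat.cast_nonneg _
  have h3 : (c.B.card : ℝ) * 1 ≤ c.B.card * (γ * (8 * c.m)) :=
    mul_le_mul_of_nonneg_left (by linarith) h2
  have h4 : γ * ((c.B.card : ℝ) * (8 * c.m)) ≤ γ * c.P.card := mul_le_mul_of_nonneg_left h1 hγ.le
  linarith

lemma exists_m₀ {γ : ℝ} (hγ : 0 < γ) : ∃ m₀ : ℕ, ∀ m : ℕ, m₀ ≤ m → 4000 ≤ γ * (8 * m) := by
  refine ⟨⌈4000 / γ⌉₊, fun m hm => ?_⟩
  have h1 : 4000 / γ ≤ m := (Nat.le_ceil _).trans (by exact_mod_cast hm)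
  rw [div_le_iff₀ hγ] at h1
  have h2 : (0 : ℝ) ≤ m := Nat.cast_nonneg _
  nlinarith

lemma scale_ind (hbase : S_base) (hstep : S_step) (j : ℕ) : ∀ γ : ℝ, 0 < γ →
    ∃ (κ₀ : ℝ) (m₀ : ℕ), 0 < κ₀ ∧ ∀ (c : Cfg) (u J : ℕ), c.Good → c.Scales u J → j ≤ J →
      m₀ ≤ c.m → ((c.F.filter (fun s => (c.pop (2 * u * (8 * c.m) ^ j) s : ℝ) <
        κ₀ * (u * c.E / c.Q) * (8 * c.m) ^ (2 * j))).card : ℝ) ≤ γ * c.F.card := by
  induction j with
  | zero =>
    intro γ hγ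
    obtain ⟨m₀, hm₀⟩ := exists_m₀ (show 0 < γ / 3 by positivity)
    refine ⟨1 / 32, m₀, by norm_num, fun c u J hc hs hj hm => ?_⟩
    have h1 := hm₀ c.m hm
    have hQ := hc.QR
    have h0 : 2 * (2 * u) ≤ c.Q := by
      refine le_trans ?_ hs.hQ
      have h2 : 1 ≤ (8 * c.m) ^ J := Nat.one_le_pow _ _ (by have := hc.hm; omega)
      have h3 : 2 * u * 1 ≤ 2 * u * (8 * c.m) ^ J := Nat.mul_le_mul_left _ h2
      omega
    have h2 := hbase c hc u hs.hu h0 hs.base (γ / 3) h1 (B_le hc h1)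
    have h3 : 3 * (γ / 3) * (c.F.card : ℝ) = γ * c.F.card := by ring
    rw [h3] at h2
    refine le_trans (le_of_eq ?_) h2
    congr 2
    refine Finset.filter_congr fun s _ => ?_
    rw [mul_zero, pow_zero, mul_one, mul_one]
    have h4 : 1 / 32 * ((u : ℝ) * c.E / c.Q) = u * c.E / (32 * c.Q) := by field_simp
    rw [h4]
  | succ j ih =>
    intro γ hγ
    obtain ⟨κ₀, m₀, hκ₀, ih⟩ := ih ((γ / 300) ^ 2) (by positivity)
    obtain ⟨m₁, hm₁⟩ := exists_m₀ (show 0 < γ / 300 by positivity)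
    refine ⟨γ / 300 * κ₀ / (3 * 10 ^ 8), max m₀ m₁, by positivity, fun c u J hc hs hj hm => ?_⟩
    have h1 := hm₁ c.m ((le_max_right _ _).trans hm)
    have h2 := ih c u J hc hs (by omega) ((le_max_left _ _).trans hm)
    have hm8 : 1 ≤ 8 * c.m := by have := hc.hm; omega
    have hle : 2 * u * (8 * c.m) ^ j * (8 * c.m) ≤ 2 * u * (8 * c.m) ^ J := by
      have h3 : (8 * c.m) ^ (j + 1) ≤ (8 * c.m) ^ J := Nat.pow_le_pow_right hm8 hj
      calc 2 * u * (8 * c.m) ^ j * (8 * c.m) = 2 * u * (8 * c.m) ^ (j + 1) := by ring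
        _ ≤ _ := Nat.mul_le_mul_left _ h3
    have hv : 1 ≤ 2 * u * (8 * c.m) ^ j := by
      have := hs.hu
      have := Nat.one_le_pow j (8 * c.m) hm8
      exact Nat.one_le_iff_ne_zero.2 (by positivity)
    have hvN : 2 * u * (8 * c.m) ^ j * (8 * c.m) * c.N ≤ c.Q * c.Q :=
      (Nat.mul_le_mul_right _ hle).trans hs.hN
    have hvQ : 2 * (2 * u * (8 * c.m) ^ j * (8 * c.m)) ≤ c.Q :=
      (Nat.mul_le_mul_left _ hle).trans hs.hQ
    have h3 := hstep c hc (2 * u * (8 * c.m) ^ j) hv hvN hvQ (hs.blocks j (by omega)) (γ / 300)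
      (κ₀ * (u * c.E / c.Q) * (8 * c.m) ^ (2 * j)) (by positivity) h1 (B_le hc h1)
      (by push_cast; exact h2)
    have h4 : 300 * (γ / 300) * (c.F.card : ℝ) = γ * c.F.card := by ring
    rw [h4] at h3
    refine le_trans (le_of_eq ?_) h3
    congr 2
    refine Finset.filter_congr fun s _ => ?_
    push_cast
    have h5 : 2 * (u : ℝ) * (8 * c.m) ^ (j + 1) = 2 * u * (8 * c.m) ^ j * (8 * c.m) := by ring
    have h6 : γ / 300 * κ₀ / (3 * 10 ^ 8) * ((u : ℝ) * c.E / c.Q) * (8 * c.m) ^ (2 * (j + 1)) =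
        γ / 300 * (κ₀ * (u * c.E / c.Q) * (8 * c.m) ^ (2 * j)) * (8 * c.m) ^ 2 / (3 * 10 ^ 8) := by
      ring
    rw [h5, h6]

theorem core (hbase : S_base) (hstep : S_step) (hsum : S_sum_pop) : S_core := by
  intro J
  obtain ⟨κ₀, m₀, hκ₀, h⟩ := scale_ind hbase hstep J (1 / 2) (by norm_num)
  refine ⟨24 / κ₀, m₀, fun c u hc hs hm => ?_⟩
  have h1 := h c u J hc hs le_rfl hm
  have hQ := hc.QR
  have hE := hc.hE
  have hmR := hc.mR
  have hu : (1 : ℝ) ≤ u := by exact_mod_cast hs.hu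
  set w : ℝ := 2 * u * (8 * c.m) ^ J with hw
  have hw1 : 1 ≤ w := by
    have h2 : (1 : ℝ) ≤ (8 * c.m) ^ J := one_le_pow₀ (by linarith)
    nlinarith
  have hw2 : 2 * w ≤ c.Q := by
    have h2 : ((2 * (2 * u * (8 * c.m) ^ J) : ℕ) : ℝ) ≤ c.Q := by exact_mod_cast hs.hQ
    push_cast at h2
    linarith
  have h2 := hsum c hc w hw1 hw2
  set L : ℝ := κ₀ * (u * c.E / c.Q) * (8 * c.m) ^ (2 * J) with hL
  have hL0 : 0 < L := by rw [hL]; positivity
  have hF : 0 < (c.F.card : ℝ) := by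
    have h3 := card_F_lower hc
    have h4 := hc.card_pos
    have h5 : 0 < (c.P.card : ℝ) * ((c.Q : ℝ) - 1) := mul_pos h4 (by linarith)
    linarith
  have h3 : 1 / 2 * (c.F.card : ℝ) * L ≤ ∑ s ∈ c.F, (c.pop w s : ℝ) := by
    have h4 : (c.F.card : ℝ) = ((c.F.filter (fun s => (c.pop w s : ℝ) < L)).card : ℝ) +
        ((c.F.filter (fun s => ¬ (c.pop w s : ℝ) < L)).card : ℝ) := by
      exact_mod_cast (Finset.card_filter_add_card_filter_not (s := c.F)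
        (fun s => (c.pop w s : ℝ) < L)).symm
    have h5 : 1 / 2 * (c.F.card : ℝ) ≤ ((c.F.filter (fun s => ¬ (c.pop w s : ℝ) < L)).card : ℝ) := by
      linarith
    calc 1 / 2 * (c.F.card : ℝ) * L
        ≤ ((c.F.filter (fun s => ¬ (c.pop w s : ℝ) < L)).card : ℝ) * L :=
          mul_le_mul_of_nonneg_right h5 hL0.le
      _ = ∑ s ∈ c.F.filter (fun s => ¬ (c.pop w s : ℝ) < L), L := by
          rw [Finset.sum_const, nsmul_eq_mul]
      _ ≤ ∑ s ∈ c.F.filter (fun s => ¬ (c.pop w s : ℝ) < L), (c.pop w s : ℝ) :=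
          Finset.sum_le_sum fun s hs => not_lt.1 (Finset.mem_filter.1 hs).2
      _ ≤ _ := Finset.sum_le_sum_of_subset_of_nonneg (Finset.filter_subset _ _)
            fun _ _ _ => Nat.cast_nonneg _
  have h4 : 1 / 2 * (c.F.card : ℝ) * L ≤ 6 * w * c.F.card := h3.trans h2
  have h5 : L ≤ 12 * w := by
    have h6 : (c.F.card : ℝ) * L ≤ c.F.card * (12 * w) := by linarith
    exact le_of_mul_le_mul_left h6 hF
  -- conclusion
  have hM0 : (0 : ℝ) < (8 * c.m) ^ J := by positivity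
  have h6 : (c.E * (8 * c.m : ℝ) ^ J) * (κ₀ * u * (8 * c.m) ^ J) ≤
      (24 / κ₀ * c.Q) * (κ₀ * u * (8 * c.m) ^ J) := by
    have h7 : (c.E * (8 * c.m : ℝ) ^ J) * (κ₀ * u * (8 * c.m) ^ J) = c.Q * L := by
      rw [hL]
      field_simp
      ring
    have h8 : (24 / κ₀ * c.Q) * (κ₀ * u * (8 * c.m) ^ J) = c.Q * (12 * w) := by
      rw [hw]
      field_simp
      ring
    rw [h7, h8]
    exact mul_le_mul_of_nonneg_left h5 (by positivity)
  exact le_of_mul_le_mul_right h6 (by positivity)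

end Pool.Agent.Helper69.TS
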