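import Mathlib
import Pool.Agent.Helper69.TS.Basic
import Pool.Agent.Helper73.RK.Main

/-!
# The main theorem in integers
-/

set_option autoImplicit false

open Finset Pool.Agent.Helper73.RK

namespace Pool.Agent.Helper69.TS

open Classical in
/-- The number of exceptional moduli of one set of residues. -/
lemma bad_W (hsb : S_spec_bad) {P : Finset ℕ} {r h l i₀ x R Q : ℕ} {κ : ℝ} (hl : 1 ≤ l)
    (h4 : l * (h + 5) + 12 ≤ r) (h5 : r + 19 + l * (h + 6) ≤ l * i₀) (hx : 40000 ≤ x)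
    (hR1 : x ^ r ≤ R) (hR2 : R ≤ x ^ (r + 2)) (hRQ : R ≤ Q) (hQR : Q ≤ 3 * R)
    (hP : ∀ p ∈ P, p.Prime ∧ Q ≤ p ∧ p ≤ 2 * Q) (hPR : (R : ℝ) ≤ 16 * (x : ℝ) ^ 2 * P.card)
    (hκ : 0 < κ) (hκx : 1 ≤ κ * (x : ℝ) ^ (h + 1))
    {W : Finset ℕ} {H v : ℕ} (hv : W.card = v) (hW : ∀ w ∈ W, 1 ≤ w ∧ w ≤ H)
    (hH : H ≤ 2 * x * v) (hvu : x ^ i₀ ≤ v) (hHQ : H < Q)
    (hD : ∀ n : ℕ, n ≠ 0 → n ≤ H ^ l → n.divisors.card ≤ x) :
    ((P.filter (fun p => ¬ Spec p W κ)).card : ℝ) * (x : ℝ) ^ 9 ≤ P.card := by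
  have hxR : (40000 : ℝ) ≤ x := by exact_mod_cast hx
  have hx1 : (1 : ℝ) ≤ x := by linarith
  have hx0 : (0 : ℝ) < x := by linarith
  have hRpos : 1 ≤ R := (Nat.one_le_pow _ _ (by omega)).trans hR1
  have hb := hsb P Q W H l κ x (hRpos.trans hRQ) hP hW hHQ hl hκ hD
  rw [hv] at hb
  have hvpos : 1 ≤ v := (Nat.one_le_pow _ _ (by omega)).trans hvu
  have hvR : (1 : ℝ) ≤ v := by exact_mod_cast hvpos
  have hR1' : (x : ℝ) ^ r ≤ R := by exact_mod_cast hR1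
  have hR2' : (R : ℝ) ≤ (x : ℝ) ^ (r + 2) := by exact_mod_cast hR2
  have hQR' : (Q : ℝ) ≤ 3 * R := by exact_mod_cast hQR
  have hvu' : (x : ℝ) ^ i₀ ≤ v := by exact_mod_cast hvu
  have hH' : (H : ℝ) ≤ 2 * x * v := by exact_mod_cast hH
  have hR0 : (0 : ℝ) ≤ R := Nat.cast_nonneg _
  have hQ0 : (0 : ℝ) ≤ Q := Nat.cast_nonneg _
  have hH0 : (0 : ℝ) ≤ H := Nat.cast_nonneg _
  obtain ⟨K, hK⟩ : ∃ K : ℝ, K = ((P.filter (fun p => ¬ Spec p W κ)).card : ℝ) := ⟨_, rfl⟩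
  have hb' : K * (κ * v) ^ l ≤ 60 * ((H : ℝ) ^ l + 4 * (Q : ℝ) ^ 2) * (x : ℝ) ^ l := by
    rw [hK]
    exact hb
  rw [← hK]
  have hK0 : 0 ≤ K := by rw [hK]; exact Nat.cast_nonneg _
  have e1 : (v : ℝ) ^ l ≤ (κ * v) ^ l * (x : ℝ) ^ ((h + 1) * l) := by
    rw [pow_mul, ← mul_pow]
    refine pow_le_pow_left₀ (by positivity) ?_ l
    have : (v : ℝ) * 1 ≤ v * (κ * (x : ℝ) ^ (h + 1)) := mul_le_mul_of_nonneg_left hκx (by positivity)
    linarith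
  have e2 : K * (v : ℝ) ^ l ≤
      60 * ((H : ℝ) ^ l + 4 * (Q : ℝ) ^ 2) * (x : ℝ) ^ l * (x : ℝ) ^ ((h + 1) * l) := by
    calc K * (v : ℝ) ^ l ≤ K * ((κ * v) ^ l * (x : ℝ) ^ ((h + 1) * l)) :=
          mul_le_mul_of_nonneg_left e1 hK0
      _ = K * (κ * v) ^ l * (x : ℝ) ^ ((h + 1) * l) := by ring
      _ ≤ _ := mul_le_mul_of_nonneg_right hb' (by positivity)
  have e3 : (H : ℝ) ^ l ≤ (x : ℝ) ^ (2 * l) * (v : ℝ) ^ l := by
    rw [pow_mul, ← mul_pow]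
    refine pow_le_pow_left₀ hH0 (hH'.trans ?_) l
    have : 2 * (x : ℝ) ≤ x ^ 2 := by nlinarith
    exact mul_le_mul_of_nonneg_right this (by positivity)
  have e4 : (H : ℝ) ^ l * (x : ℝ) ^ l * (x : ℝ) ^ ((h + 1) * l) * (x : ℝ) ^ 12 ≤ R * (v : ℝ) ^ l := by
    calc (H : ℝ) ^ l * (x : ℝ) ^ l * (x : ℝ) ^ ((h + 1) * l) * (x : ℝ) ^ 12
        ≤ ((x : ℝ) ^ (2 * l) * (v : ℝ) ^ l) * (x : ℝ) ^ l * (x : ℝ) ^ ((h + 1) * l) * (x : ℝ) ^ 12 := by
          gcongr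
      _ = (x : ℝ) ^ (2 * l + l + (h + 1) * l + 12) * (v : ℝ) ^ l := by
          rw [pow_add, pow_add, pow_add]; ring
      _ ≤ (x : ℝ) ^ r * (v : ℝ) ^ l := by
          refine mul_le_mul_of_nonneg_right (pow_le_pow_right₀ hx1 ?_) (by positivity)
          nlinarith
      _ ≤ _ := mul_le_mul_of_nonneg_right hR1' (by positivity)
  have e5 : 4 * (Q : ℝ) ^ 2 * (x : ℝ) ^ l * (x : ℝ) ^ ((h + 1) * l) * (x : ℝ) ^ 12 ≤
      36 * (R * (v : ℝ) ^ l) := by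
    have h6 : (Q : ℝ) ^ 2 ≤ 9 * (R * (x : ℝ) ^ (r + 2)) := by
      calc (Q : ℝ) ^ 2 ≤ (3 * R) ^ 2 := pow_le_pow_left₀ hQ0 hQR' 2
        _ = 9 * (R * R) := by ring
        _ ≤ _ := by gcongr
    calc 4 * (Q : ℝ) ^ 2 * (x : ℝ) ^ l * (x : ℝ) ^ ((h + 1) * l) * (x : ℝ) ^ 12
        ≤ 4 * (9 * (R * (x : ℝ) ^ (r + 2))) * (x : ℝ) ^ l * (x : ℝ) ^ ((h + 1) * l) * (x : ℝ) ^ 12 := by
          gcongr
      _ = 36 * (R * (x : ℝ) ^ (r + 2 + l + (h + 1) * l + 12)) := by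
          have : (x : ℝ) ^ (r + 2 + l + (h + 1) * l + 12) =
              (x : ℝ) ^ (r + 2) * (x : ℝ) ^ l * (x : ℝ) ^ ((h + 1) * l) * (x : ℝ) ^ 12 := by
            rw [← pow_add, ← pow_add, ← pow_add]
          rw [this]; ring
      _ ≤ 36 * (R * (x : ℝ) ^ (i₀ * l)) := by
          have : r + 2 + l + (h + 1) * l + 12 ≤ i₀ * l := by nlinarith
          gcongr
      _ ≤ 36 * (R * (v : ℝ) ^ l) := by
          rw [pow_mul]
          gcongr
  have e6 : K * (x : ℝ) ^ 12 * (v : ℝ) ^ l ≤ 2220 * R * (v : ℝ) ^ l := by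
    calc K * (x : ℝ) ^ 12 * (v : ℝ) ^ l = K * (v : ℝ) ^ l * (x : ℝ) ^ 12 := by ring
      _ ≤ (60 * ((H : ℝ) ^ l + 4 * (Q : ℝ) ^ 2) * (x : ℝ) ^ l * (x : ℝ) ^ ((h + 1) * l)) *
          (x : ℝ) ^ 12 := mul_le_mul_of_nonneg_right e2 (by positivity)
      _ = 60 * ((H : ℝ) ^ l * (x : ℝ) ^ l * (x : ℝ) ^ ((h + 1) * l) * (x : ℝ) ^ 12) +
          60 * (4 * (Q : ℝ) ^ 2 * (x : ℝ) ^ l * (x : ℝ) ^ ((h + 1) * l) * (x : ℝ) ^ 12) := by ring
      _ ≤ 60 * (R * (v : ℝ) ^ l) + 60 * (36 * (R * (v : ℝ) ^ l)) := by linarith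
      _ = _ := by ring
  have e7 : K * (x : ℝ) ^ 12 ≤ 2220 * R := le_of_mul_le_mul_right e6 (by positivity)
  have e8 : K * (x : ℝ) ^ 9 * (x : ℝ) ^ 3 ≤ P.card * (x : ℝ) ^ 3 := by
    have hc0 : (0 : ℝ) ≤ P.card := Nat.cast_nonneg _
    calc K * (x : ℝ) ^ 9 * (x : ℝ) ^ 3 = K * (x : ℝ) ^ 12 := by ring
      _ ≤ 2220 * (R : ℝ) := e7
      _ ≤ 2220 * (16 * (x : ℝ) ^ 2 * P.card) := by linarith
      _ = 35520 * ((x : ℝ) ^ 2 * P.card) := by ring
      _ ≤ x * ((x : ℝ) ^ 2 * P.card) := by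
          refine mul_le_mul_of_nonneg_right (by linarith) (by positivity)
      _ = _ := by ring
  exact le_of_mul_le_mul_right e8 (by positivity)

open Classical in
theorem main_int (hsb : S_spec_bad) (hcore : S_core) (hint : S_interval) (hlight : S_light)
    (hbuild : S_build) : S_main_int := by
  intro n r s h l i₀ hl h1 h2 h3 h4 h5 h6
  obtain ⟨C, m₀, hC⟩ := hcore (h + 1)
  obtain ⟨x₂, hdiv⟩ := card_divisors_le ((r + 3) * l)
  obtain ⟨x₃, hdy⟩ := le_mul_card_dyadic (r + 2)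
  obtain ⟨x₄, hx₄⟩ : ∃ x₄ : ℕ, C < x₄ := ⟨⌈C⌉₊ + 1, by
    push_cast
    have := Nat.le_ceil C
    linarith⟩
  refine ⟨40000 + 2 * 8 ^ (h + 1) + (h + 2) + m₀ + x₂ + x₃ + x₄, fun x hX N R a hN1 hN2 hR1 hR2 => ?_⟩
  have hx : 40000 ≤ x := by omega
  have hx8 : 2 * 8 ^ (h + 1) ≤ x := by omega
  have hxJ : h + 2 ≤ x := by omega
  have hxC : C < x := lt_of_lt_of_le hx₄ (by
    have : x₄ ≤ x := by omega
    exact_mod_cast this)
  by_contra hS
  push Not at hS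
  have hxR : (40000 : ℝ) ≤ x := by exact_mod_cast hx
  have hx1 : (1 : ℝ) ≤ x := by linarith
  have hx0 : (0 : ℝ) < x := by linarith
  have hr12 : 12 ≤ r := by omega
  have hRbig : x * x ≤ R := by
    calc x * x = x ^ 2 := (sq x).symm
      _ ≤ x ^ r := Nat.pow_le_pow_right (by omega) (by omega)
      _ ≤ R := hR1
  have hxx : 40000 * x ≤ x * x := Nat.mul_le_mul_right _ hx
  have hRpos : 3 ≤ R := by omega
  -- the interval
  obtain ⟨Q, hRQ, hQR, hQc⟩ := hint R x (by omega) (by omega) hRpos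
  set P := PP R x Q with hP
  have hPmem : ∀ p ∈ P, p ∈ dyadic (R - 1) ∧ Q ≤ p ∧ 8 * x * p ≤ (8 * x + 1) * Q := by
    intro p hp
    exact Finset.mem_filter.1 hp
  have hPp : ∀ p ∈ P, p.Prime ∧ Q ≤ p ∧ 8 * x * p ≤ (8 * x + 1) * Q := fun p hp =>
    ⟨(mem_dyadic (by omega) (hPmem p hp).1).1, (hPmem p hp).2⟩
  have hPp2 : ∀ p ∈ P, p.Prime ∧ Q ≤ p ∧ p ≤ 2 * Q := fun p hp =>
    ⟨(hPp p hp).1, (hPp p hp).2.1, by
      have h7 := (mem_dyadic (by omega) (hPmem p hp).1).2.2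
      omega⟩
  have hRR : R ≤ 16 * x ^ 2 * P.card := by
    have h7 := hdy x (by omega) (R - 1) (by omega) ((Nat.sub_le _ _).trans hR2)
    have h8 : R - 1 ≤ 8 * x ^ 2 * P.card := by
      calc R - 1 ≤ x * (dyadic (R - 1)).card := h7
        _ ≤ x * (8 * x * P.card) := Nat.mul_le_mul_left _ hQc
        _ = _ := by ring
    have h9 : 16 * x ^ 2 * P.card = 2 * (8 * x ^ 2 * P.card) := by ring
    omega
  have hPR : (R : ℝ) ≤ 16 * (x : ℝ) ^ 2 * P.card := by exact_mod_cast hRR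
  have hPne : P.Nonempty := by
    rw [Finset.nonempty_iff_ne_empty]
    intro h7
    rw [h7, Finset.card_empty, mul_zero] at hRR
    omega
  have hPpos : (0 : ℝ) < P.card := by exact_mod_cast Finset.card_pos.2 hPne
  -- the parameters
  obtain ⟨e, he⟩ : ∃ e : ℕ, n = s + e + 6 := ⟨n - s - 6, by omega⟩
  have he1 : 1 ≤ e := by omega
  set ρ := x ^ e with hρ
  have hρ2 : 2 ≤ ρ := by
    calc 2 ≤ x ^ 1 := by rw [pow_one]; omega
      _ ≤ _ := Nat.pow_le_pow_right (by omega) he1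
  have hQpos : 1 ≤ Q := by omega
  have hQ0 : (0 : ℝ) < Q := by exact_mod_cast hQpos
  have hN0 : (0 : ℝ) < N := by
    have : 1 ≤ N := (Nat.one_le_pow _ _ (by omega)).trans hN1
    exact_mod_cast this
  have hρ0 : (0 : ℝ) < ρ := by exact_mod_cast (by omega : 0 < ρ)
  set E : ℝ := (ρ : ℝ) * N / Q with hE
  set κ : ℝ := E / (Q * (8 * x)) with hκ
  set u := x ^ i₀ with hu
  have hE0 : 0 < E := by rw [hE]; positivity
  have hκ0 : 0 < κ := by rw [hκ]; positivity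
  have hR1' : (x : ℝ) ^ r ≤ R := by exact_mod_cast hR1
  have hR2' : (R : ℝ) ≤ (x : ℝ) ^ (r + 2) := by exact_mod_cast hR2
  have hQR' : (Q : ℝ) ≤ 3 * R := by exact_mod_cast hQR
  have hRQ' : (R : ℝ) ≤ Q := by exact_mod_cast hRQ
  have hN1' : (x : ℝ) ^ n ≤ N := by exact_mod_cast hN1
  have hN2' : (N : ℝ) ≤ (x : ℝ) ^ (n + 1) := by exact_mod_cast hN2
  have hR0 : (0 : ℝ) ≤ R := Nat.cast_nonneg _
  have hQ2 : (Q : ℝ) ^ 2 ≤ 9 * (x : ℝ) ^ (2 * r + 4) := by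
    calc (Q : ℝ) ^ 2 ≤ (3 * R) ^ 2 := pow_le_pow_left₀ hQ0.le hQR' 2
      _ ≤ (3 * (x : ℝ) ^ (r + 2)) ^ 2 := by gcongr
      _ = _ := by rw [mul_pow, ← pow_mul]; norm_num; ring
  -- the density is at least `x ^ (-h)`
  have hEh : (Q : ℝ) * (x : ℝ) ^ 1 ≤ E * (x : ℝ) ^ h := by
    rw [hE, div_mul_eq_mul_div, le_div_iff₀ hQ0]
    have h7 : (x : ℝ) ^ (2 * r + 6) ≤ (ρ : ℝ) * N * (x : ℝ) ^ h := by
      calc (x : ℝ) ^ (2 * r + 6) = (x : ℝ) ^ e * (x : ℝ) ^ n * (x : ℝ) ^ h := by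
            rw [← pow_add, ← pow_add]; congr 1; omega
        _ = (ρ : ℝ) * (x : ℝ) ^ n * (x : ℝ) ^ h := by rw [hρ]; push_cast; ring
        _ ≤ _ := by gcongr
    refine le_trans ?_ h7
    calc (Q : ℝ) * (x : ℝ) ^ 1 * Q = (Q : ℝ) ^ 2 * x := by ring
      _ ≤ 9 * (x : ℝ) ^ (2 * r + 4) * x := mul_le_mul_of_nonneg_right hQ2 hx0.le
      _ ≤ x * (x : ℝ) ^ (2 * r + 4) * x := by gcongr; linarith
      _ = _ := by ring
  have hκx : 1 ≤ κ * (x : ℝ) ^ (h + 1) := by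
    rw [hκ, div_mul_eq_mul_div, le_div_iff₀ (by positivity), one_mul]
    have h7 : E * (x : ℝ) ^ (h + 1) = E * (x : ℝ) ^ h * x := by rw [pow_succ]; ring
    rw [h7]
    rw [pow_one] at hEh
    have h8 : (Q : ℝ) * x * x ≤ E * (x : ℝ) ^ h * x := mul_le_mul_of_nonneg_right hEh hx0.le
    have h9 : (Q : ℝ) * (8 * x) ≤ Q * x * x := by
      have : (0 : ℝ) ≤ Q * x := by positivity
      nlinarith
    linarith
  -- sizes of scales
  have hmax : 2 * u * (8 * x) ^ (h + 1) * N ≤ Q * Q := by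
    calc 2 * u * (8 * x) ^ (h + 1) * N = (2 * 8 ^ (h + 1)) * (u * x ^ (h + 1)) * N := by
          rw [mul_pow]; ring
      _ ≤ x * (u * x ^ (h + 1)) * x ^ (n + 1) :=
          Nat.mul_le_mul (Nat.mul_le_mul_right _ hx8) hN2
      _ = x ^ (i₀ + h + n + 3) := by rw [hu]; ring
      _ ≤ x ^ (2 * r) := Nat.pow_le_pow_right (by omega) h6
      _ = x ^ r * x ^ r := by rw [two_mul, pow_add]
      _ ≤ Q * Q := Nat.mul_le_mul (hR1.trans hRQ) (hR1.trans hRQ)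
  have hNQ8 : 8 * x * Q ≤ N := by
    calc 8 * x * Q ≤ 8 * x * (3 * x ^ (r + 2)) :=
          Nat.mul_le_mul_left _ (hQR.trans (Nat.mul_le_mul_left _ hR2))
      _ = 24 * x ^ (r + 3) := by ring
      _ ≤ x * x ^ (r + 3) := Nat.mul_le_mul_right _ (by omega)
      _ = x ^ (r + 4) := by ring
      _ ≤ x ^ n := Nat.pow_le_pow_right (by omega) (by omega)
      _ ≤ N := hN1
  have hmaxQ : 2 * (2 * u * (8 * x) ^ (h + 1)) ≤ Q := by
    refine Nat.le_of_mul_le_mul_right ?_ hQpos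
    calc 2 * (2 * u * (8 * x) ^ (h + 1)) * Q = 2 * u * (8 * x) ^ (h + 1) * (2 * Q) := by ring
      _ ≤ 2 * u * (8 * x) ^ (h + 1) * N := by
          refine Nat.mul_le_mul_left _ (le_trans ?_ hNQ8)
          exact Nat.mul_le_mul_right _ (by omega)
      _ ≤ Q * Q := hmax
  have hD : ∀ H : ℕ, H ≤ Q → ∀ k : ℕ, k ≠ 0 → k ≤ H ^ l → k.divisors.card ≤ x := by
    intro H hH k hk hkH
    refine hdiv x (by omega) k hk (hkH.trans ?_)
    rw [pow_mul]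
    refine Nat.pow_le_pow_left (hH.trans (hQR.trans ?_)) l
    calc 3 * R ≤ x * x ^ (r + 2) := Nat.mul_le_mul (by omega) hR2
      _ = _ := by ring
  -- exceptional moduli
  set B1 := P.filter (fun p => N < (light P a N ρ p).card * (4 * Q)) with hB1
  set B2 := P.filter (fun p => ¬ Spec p (Ioc u (2 * u)) κ) with hB2
  set B3 : ℕ × ℕ → Finset ℕ := fun z =>
    P.filter (fun p => ¬ Spec p (blk (2 * u * (8 * x) ^ z.1) z.2) κ) with hB3
  set I : Finset (ℕ × ℕ) := range (h + 1) ×ˢ Ico x (2 * x) with hI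
  set B := B1 ∪ (B2 ∪ I.biUnion B3) with hB
  have hupos : 1 ≤ u := Nat.one_le_pow _ _ (by omega)
  have hb1 : (B1.card : ℝ) * (x : ℝ) ^ 3 ≤ P.card := by
    have h7 : B1.card * N ≤ 4 * Q * (ρ * x ^ s) := by
      calc B1.card * N = ∑ p ∈ B1, N := by rw [Finset.sum_const, smul_eq_mul]
        _ ≤ ∑ p ∈ B1, (light P a N ρ p).card * (4 * Q) :=
            Finset.sum_le_sum fun p hp => (Finset.mem_filter.1 hp).2.le
        _ ≤ ∑ p ∈ P, (light P a N ρ p).card * (4 * Q) :=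
            Finset.sum_le_sum_of_subset (Finset.filter_subset _ _)
        _ = (∑ p ∈ P, (light P a N ρ p).card) * (4 * Q) := by rw [Finset.sum_mul]
        _ ≤ (ρ * ((Icc (1 : ℤ) N).filter (fun n => (AA P a n).Nonempty)).card) * (4 * Q) :=
            Nat.mul_le_mul_right _ (hlight P a N ρ)
        _ ≤ (ρ * x ^ s) * (4 * Q) := by
            refine Nat.mul_le_mul_right _ (Nat.mul_le_mul_left _ (le_trans ?_ hS))
            refine Finset.card_le_card fun k hk => ?_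
            obtain ⟨k1, p, hp⟩ := Finset.mem_filter.1 hk
            refine Finset.mem_filter.2 ⟨k1, p, ?_⟩
            obtain ⟨p1, p2⟩ := Finset.mem_filter.1 hp
            exact Finset.mem_filter.2 ⟨(hPmem p p1).1, p2⟩
        _ = _ := by ring
    have h8 : (B1.card : ℝ) * N ≤ 4 * Q * ((x : ℝ) ^ e * (x : ℝ) ^ s) := by exact_mod_cast h7
    have h9 : (B1.card : ℝ) * (x : ℝ) ^ 6 * (x : ℝ) ^ (s + e) ≤ 4 * Q * (x : ℝ) ^ (s + e) := by
      calc (B1.card : ℝ) * (x : ℝ) ^ 6 * (x : ℝ) ^ (s + e) = B1.card * (x : ℝ) ^ n := by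
            rw [he, pow_add _ (s + e)]; ring
        _ ≤ B1.card * N := by gcongr
        _ ≤ _ := h8
        _ = _ := by rw [pow_add]; ring
    have h10 := le_of_mul_le_mul_right h9 (by positivity)
    have h11 : (B1.card : ℝ) * (x : ℝ) ^ 3 * (x : ℝ) ^ 3 ≤ P.card * (x : ℝ) ^ 3 := by
      calc (B1.card : ℝ) * (x : ℝ) ^ 3 * (x : ℝ) ^ 3 = B1.card * (x : ℝ) ^ 6 := by ring
        _ ≤ 4 * (Q : ℝ) := h10
        _ ≤ 12 * (R : ℝ) := by linarith
        _ ≤ 12 * (16 * (x : ℝ) ^ 2 * P.card) := by linarith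
        _ = 192 * ((x : ℝ) ^ 2 * P.card) := by ring
        _ ≤ x * ((x : ℝ) ^ 2 * P.card) :=
            mul_le_mul_of_nonneg_right (by linarith) (by positivity)
        _ = _ := by ring
    exact le_of_mul_le_mul_right h11 (by positivity)
  have hb2 : (B2.card : ℝ) * (x : ℝ) ^ 9 ≤ P.card := by
    refine bad_W hsb (v := u) (H := 2 * u) hl h4 h5 hx hR1 hR2 hRQ hQR hPp2 hPR hκ0 hκx ?_ ?_ ?_ le_rfl ?_ ?_
    · rw [Nat.card_Ioc]; omega
    · intro w hw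
      obtain ⟨w1, w2⟩ := Finset.mem_Ioc.1 hw
      exact ⟨by omega, w2⟩
    · refine Nat.mul_le_mul_right _ ?_
      omega
    · have h7 : 1 ≤ (8 * x) ^ (h + 1) := Nat.one_le_pow _ _ (by omega)
      have h8 : 2 * u * 1 ≤ 2 * u * (8 * x) ^ (h + 1) := Nat.mul_le_mul_left _ h7
      omega
    · refine hD _ ?_
      have h7 : 1 ≤ (8 * x) ^ (h + 1) := Nat.one_le_pow _ _ (by omega)
      have h8 : 2 * u * 1 ≤ 2 * u * (8 * x) ^ (h + 1) := Nat.mul_le_mul_left _ h7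
      omega
  have hb3 : ∀ z ∈ I, ((B3 z).card : ℝ) * (x : ℝ) ^ 9 ≤ P.card := by
    intro z hz
    obtain ⟨z1, z2⟩ := Finset.mem_product.1 hz
    rw [Finset.mem_range] at z1
    rw [Finset.mem_Ico] at z2
    obtain ⟨v, hv⟩ : ∃ v, v = 2 * u * (8 * x) ^ z.1 := ⟨_, rfl⟩
    have hvu : u ≤ v := by
      rw [hv]
      have h7 : 1 ≤ (8 * x) ^ z.1 := Nat.one_le_pow _ _ (by omega)
      have h8 : 2 * u * 1 ≤ 2 * u * (8 * x) ^ z.1 := Nat.mul_le_mul_left _ h7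
      omega
    have hvx : v * (8 * x) ≤ 2 * u * (8 * x) ^ (h + 1) := by
      rw [hv]
      calc 2 * u * (8 * x) ^ z.1 * (8 * x) = 2 * u * (8 * x) ^ (z.1 + 1) := by ring
        _ ≤ _ := Nat.mul_le_mul_left _ (Nat.pow_le_pow_right (by omega) (by omega))
    have hHQ : 2 * x * v < Q := by
      have h7 : v * (8 * x) = 4 * (2 * x * v) := by ring
      have h8 : 0 < 2 * x * v := Nat.mul_pos (by omega) (by omega)
      omega
    simp only [hB3]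
    rw [← hv]
    refine bad_W hsb (v := v) (H := 2 * x * v) hl h4 h5 hx hR1 hR2 hRQ hQR hPp2 hPR hκ0 hκx ?_ ?_ le_rfl hvu hHQ (hD _ hHQ.le)
    · unfold blk
      rw [Nat.card_Ioc]
      have : (z.2 + 1) * v = z.2 * v + v := by ring
      omega
    · intro w hw
      obtain ⟨w1, w2⟩ := Finset.mem_Ioc.1 hw
      refine ⟨by omega, w2.trans ?_⟩
      exact Nat.mul_le_mul_right _ (by omega)
  have hBcardR : (B.card : ℝ) * (8 * x) ≤ P.card := by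
    have h7 : (B.card : ℝ) ≤ B1.card + (B2.card + ∑ z ∈ I, ((B3 z).card : ℝ)) := by
      have h8 : B.card ≤ B1.card + (B2.card + ∑ z ∈ I, (B3 z).card) :=
        (Finset.card_union_le _ _).trans (Nat.add_le_add_left
          ((Finset.card_union_le _ _).trans (Nat.add_le_add_left Finset.card_biUnion_le _)) _)
      exact_mod_cast h8
    have h8 : (∑ z ∈ I, ((B3 z).card : ℝ)) * (x : ℝ) ^ 9 ≤ I.card * P.card := by
      rw [Finset.sum_mul, ← nsmul_eq_mul, ← Finset.sum_const]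
      exact Finset.sum_le_sum hb3
    have h9 : (I.card : ℝ) ≤ (x : ℝ) ^ 2 := by
      rw [hI, Finset.card_product, Finset.card_range, Nat.card_Ico]
      have h10 : (h + 1) * (2 * x - x) ≤ x ^ 2 := by
        rw [sq]
        exact Nat.mul_le_mul (by omega) (by omega)
      exact_mod_cast h10
    have h10 : (B.card : ℝ) * (8 * x) * (x : ℝ) ^ 8 ≤ P.card * (x : ℝ) ^ 8 := by
      calc (B.card : ℝ) * (8 * x) * (x : ℝ) ^ 8 = 8 * (B.card * (x : ℝ) ^ 9) := by ring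
        _ ≤ 8 * ((B1.card + (B2.card + ∑ z ∈ I, ((B3 z).card : ℝ))) * (x : ℝ) ^ 9) := by gcongr
        _ = 8 * ((B1.card * (x : ℝ) ^ 3) * (x : ℝ) ^ 6 + B2.card * (x : ℝ) ^ 9 +
            (∑ z ∈ I, ((B3 z).card : ℝ)) * (x : ℝ) ^ 9) := by ring
        _ ≤ 8 * (P.card * (x : ℝ) ^ 6 + P.card + (x : ℝ) ^ 2 * P.card) := by
            have h11 : (I.card : ℝ) * P.card ≤ (x : ℝ) ^ 2 * P.card := by gcongr
            have h12 : (B1.card * (x : ℝ) ^ 3) * (x : ℝ) ^ 6 ≤ P.card * (x : ℝ) ^ 6 := by gcongr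
            linarith
        _ ≤ 8 * (P.card * (x : ℝ) ^ 6 + P.card * (x : ℝ) ^ 6 + P.card * (x : ℝ) ^ 6) := by
            have h11 : (1 : ℝ) ≤ (x : ℝ) ^ 6 := one_le_pow₀ hx1
            have h12 : (x : ℝ) ^ 2 ≤ (x : ℝ) ^ 6 := pow_le_pow_right₀ hx1 (by norm_num)
            nlinarith
        _ = 24 * (P.card * (x : ℝ) ^ 6) := by ring
        _ ≤ x * (P.card * (x : ℝ) ^ 6) :=
            mul_le_mul_of_nonneg_right (by linarith) (by positivity)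
        _ = P.card * (x : ℝ) ^ 7 := by ring
        _ ≤ P.card * (x : ℝ) ^ 8 := by
            gcongr
            norm_num
    exact le_of_mul_le_mul_right h10 (by positivity)
  have hBcard : B.card * (8 * x) ≤ P.card := by exact_mod_cast hBcardR
  have hBP : B ⊆ P := by
    refine Finset.union_subset (Finset.filter_subset _ _) (Finset.union_subset
      (Finset.filter_subset _ _) ?_)
    refine Finset.biUnion_subset.2 fun z _ => Finset.filter_subset _ _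
  have hNQQ : N ≤ Q * Q := by
    calc N ≤ x ^ (n + 1) := hN2
      _ ≤ x ^ (2 * r) := Nat.pow_le_pow_right (by omega) (by omega)
      _ = x ^ r * x ^ r := by rw [two_mul, pow_add]
      _ ≤ Q * Q := Nat.mul_le_mul (hR1.trans hRQ) (hR1.trans hRQ)
  have hgood := hbuild P B a N Q x ρ (by omega) hρ2 (by omega) hPp hPne hNQQ hNQ8 hBP hBcard (by
    intro p hp hpB
    by_contra hcon
    refine hpB (Finset.mem_union_left _ (Finset.mem_filter.2 ⟨hp, not_le.1 hcon⟩)))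
  have hscales : Cfg.Scales { P := P, B := B, a := a, nn := pt a N, f := wt P a N ρ, N := N, Q := Q, m := x, E := (ρ : ℝ) * N / Q } u (h + 1) := by
    refine ⟨hupos, hmax, hmaxQ, ?_, ?_⟩
    · intro p hp hpB
      by_contra hcon
      refine hpB (Finset.mem_union_right _ (Finset.mem_union_left _
        (Finset.mem_filter.2 ⟨hp, hcon⟩)))
    · intro j hj p hp hpB b hb
      by_contra hcon
      refine hpB (Finset.mem_union_right _ (Finset.mem_union_right _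
        (Finset.mem_biUnion.2 ⟨(j, b), ?_, Finset.mem_filter.2 ⟨hp, hcon⟩⟩)))
      exact Finset.mem_product.2 ⟨Finset.mem_range.2 hj, hb⟩
  have hfin := hC _ u hgood hscales (by
    change m₀ ≤ x
    omega)
  change E * (8 * (x : ℝ)) ^ (h + 1) ≤ C * Q at hfin
  have h7 : (Q : ℝ) * (x : ℝ) ^ 1 * (8 * x) ^ (h + 1) ≤ C * Q * (x : ℝ) ^ h := by
    calc (Q : ℝ) * (x : ℝ) ^ 1 * (8 * x) ^ (h + 1) ≤ E * (x : ℝ) ^ h * (8 * x) ^ (h + 1) :=
          mul_le_mul_of_nonneg_right hEh (by positivity)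
      _ = E * (8 * x) ^ (h + 1) * (x : ℝ) ^ h := by ring
      _ ≤ _ := mul_le_mul_of_nonneg_right hfin (by positivity)
  have h8 : (Q : ℝ) * (x : ℝ) ^ h * (8 ^ (h + 1) * (x : ℝ) ^ 2) ≤ (Q : ℝ) * (x : ℝ) ^ h * C := by
    calc (Q : ℝ) * (x : ℝ) ^ h * (8 ^ (h + 1) * (x : ℝ) ^ 2) =
        (Q : ℝ) * (x : ℝ) ^ 1 * (8 * x) ^ (h + 1) := by rw [mul_pow]; ring
      _ ≤ _ := h7
      _ = _ := by ring
  have h9 := le_of_mul_le_mul_left h8 (by positivity)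
  have h10 : (1 : ℝ) ≤ 8 ^ (h + 1) := one_le_pow₀ (by norm_num)
  have h11 : (x : ℝ) ≤ 8 ^ (h + 1) * (x : ℝ) ^ 2 := by
    calc (x : ℝ) = 1 * (x * 1) := by ring
      _ ≤ 8 ^ (h + 1) * (x * x) := by gcongr
      _ = _ := by ring
  linarith

end Pool.Agent.Helper69.TS
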