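import Mathlib
import Pool.Agent.Helper69.TS.Stmts
import Pool.Agent.Helper73.RK.Final

/-!
# The main theorem for real exponents
-/

set_option autoImplicit false

open Finset Filter Topology Pool.Agent.Helper73.RK

namespace Pool.Agent.Helper69.TS

theorem main_real (hint : S_main_int) (α η : ℝ) (l : ℕ) (hα1 : 1 / 2 < α) (hα2 : α < 1)
    (hη : 0 ≤ η) (hl : 1 ≤ l) (h1 : l * η < α) (h2 : 2 * η + α / l < 2 * α - 1) :
    ∀ᶠ N : ℕ in atTop, ∀ a : ℕ → ℤ,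
      (N : ℝ) ^ (2 - 2 * α + η) ≤
        (N7c497599.sievedCard N a ((N : ℝ) ^ α) (2 * (N : ℝ) ^ α) : ℝ) := by
  have hl0 : (1 : ℝ) ≤ l := by exact_mod_cast hl
  have hlpos : (0 : ℝ) < l := by linarith
  have hη1 : η < 1 := by nlinarith
  have s1 : 0 < 1 - α := by linarith
  have s2 : 0 < α - l * η := by linarith
  have s3 : 0 < l * (2 * α - 1 - 2 * η) - α := by
    have h3 : α / l < 2 * α - 1 - 2 * η := by linarith
    rw [div_lt_iff₀ hlpos] at h3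
    linarith
  have s4 : 0 < 2 * α - 1 - η := by
    have : 0 < α / l := by positivity
    linarith
  have s5 : 0 < 2 * α - 1 - 2 * η := by
    have : 0 < α / l := by positivity
    linarith
  have hev := ((ev_ge s1 5).and (ev_ge s2 (21 * l + 13))).and
    (((ev_ge s3 (19 + 43 * l)).and (ev_ge s4 (10 + 2))).and ((ev_ge s5 30).and
      (eventually_ge_atTop 4)))
  obtain ⟨n, ⟨e1, e2⟩, ⟨e3, e4⟩, e5, e6⟩ := hev.exists
  have hn0 : (4 : ℝ) ≤ n := by exact_mod_cast e6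
  obtain ⟨r, hr⟩ : ∃ r : ℕ, r = ⌊(n : ℝ) * α⌋₊ := ⟨_, rfl⟩
  obtain ⟨s, hs⟩ : ∃ s : ℕ, s = ⌈((n : ℝ) + 1) * (2 - 2 * α + η)⌉₊ := ⟨_, rfl⟩
  have hα0 : 0 < α := by linarith
  have r1 : (r : ℝ) ≤ n * α := by rw [hr]; exact Nat.floor_le (by positivity)
  have r2 : (n : ℝ) * α < r + 1 := by rw [hr]; exact Nat.lt_floor_add_one _
  have d1 : ((n : ℝ) + 1) * (2 - 2 * α + η) ≤ s := by rw [hs]; exact Nat.le_ceil _
  have hσ0 : 0 ≤ 2 - 2 * α + η := by linarith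
  have d2 : (s : ℝ) ≤ ((n : ℝ) + 1) * (2 - 2 * α + η) + 1 := by
    rw [hs]
    exact (Nat.ceil_lt_add_one (by positivity)).le
  have f0 : 2 * n ≤ s + 2 * r + 12 := by
    have : 2 * (n : ℝ) ≤ s + 2 * r + 12 := by
      have : (0 : ℝ) ≤ n * η := by positivity
      nlinarith
    exact_mod_cast this
  obtain ⟨h, hh⟩ : ∃ h : ℕ, h + 2 * n = s + 2 * r + 12 := ⟨s + 2 * r + 12 - 2 * n, by omega⟩
  have hhR : (h : ℝ) + 2 * n = s + 2 * r + 12 := by exact_mod_cast hh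
  have hh1 : (h : ℝ) ≤ η * n + 16 := by nlinarith
  have f1 : h + n + 3 ≤ 2 * r := by
    have : (h : ℝ) + n + 3 ≤ 2 * r := by nlinarith
    exact_mod_cast this
  obtain ⟨i₀, hi⟩ : ∃ i₀ : ℕ, i₀ + h + n + 3 = 2 * r := ⟨2 * r - (h + n + 3), by omega⟩
  have hiR : (i₀ : ℝ) + h + n + 3 = 2 * r := by exact_mod_cast hi
  have hi1 : (n : ℝ) * (2 * α - 1 - η) - 21 ≤ i₀ := by nlinarith
  refine transfer α (2 - 2 * α + η) n r s (by omega) ?_ r1 r2.le hα0 hα2 hσ0 d1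
    (hint n r s h l i₀ hl hh ?_ ?_ ?_ ?_ hi.le)
  · have : (1 : ℝ) ≤ r := by nlinarith
    exact_mod_cast this
  · have : (s : ℝ) + 7 ≤ n := by nlinarith
    exact_mod_cast this
  · have : (r : ℝ) + 5 ≤ n := by nlinarith
    exact_mod_cast this
  · have : (l : ℝ) * (h + 5) + 12 ≤ r := by
      have h3 : (l : ℝ) * (h + 5) ≤ l * (η * n + 16 + 5) :=
        mul_le_mul_of_nonneg_left (by linarith) hlpos.le
      nlinarith
    exact_mod_cast this
  · have : (r : ℝ) + 19 + l * (h + 6) ≤ l * i₀ := by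
      have h3 : (l : ℝ) * (h + 6) ≤ l * (η * n + 16 + 6) :=
        mul_le_mul_of_nonneg_left (by linarith) hlpos.le
      have h4 : (l : ℝ) * (n * (2 * α - 1 - η) - 21) ≤ l * i₀ :=
        mul_le_mul_of_nonneg_left hi1 hlpos.le
      nlinarith
    exact_mod_cast this

end Pool.Agent.Helper69.TS
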