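import Mathlib
import Pool.Agent.Helper69.TS.Basic

/-!
# The base scale and the step between two scales
-/

set_option autoImplicit false

open Finset Pool.Agent.Helper73.RK

namespace Pool.Agent.Helper69.TS

variable {c : Cfg}

/-- Summation of counts over the moduli. -/
lemma count_le (hc : c.Good) {γ K : ℝ} (hB : (c.B.card : ℝ) ≤ γ * c.P.card) (hK : 0 ≤ K)
    (r : Pt → Prop) [DecidablePred r]
    (hr : ∀ p ∈ c.P, p ∉ c.B → (((Ico 1 p).filter (fun t => r ⟨p, t⟩)).card : ℝ) ≤ K) :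
    ((c.F.filter r).card : ℝ) ≤ γ * c.P.card * (17 / 16 * c.Q) + c.P.card * K := by
  rw [card_F_filter]
  have hQ := hc.QR
  calc ∑ p ∈ c.P, (((Ico 1 p).filter (fun t => r ⟨p, t⟩)).card : ℝ)
      ≤ ∑ p ∈ c.P, ((if p ∈ c.B then 17 / 16 * (c.Q : ℝ) else 0) + K) := by
        refine Finset.sum_le_sum fun p hp => ?_
        by_cases h : p ∈ c.B
        · rw [if_pos h]
          have h1 : (((Ico 1 p).filter (fun t => r ⟨p, t⟩)).card : ℝ) ≤ p := by
            have h2 := (Finset.card_filter_le (Ico 1 p) (fun t => r ⟨p, t⟩))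
            rw [Nat.card_Ico] at h2
            have h3 : ((Ico 1 p).filter (fun t => r ⟨p, t⟩)).card ≤ p := by omega
            exact_mod_cast h3
          have h4 := hc.ple hp
          linarith
        · rw [if_neg h, zero_add]
          exact hr p hp h
    _ = (c.P.filter (fun p => p ∈ c.B)).card * (17 / 16 * (c.Q : ℝ)) + c.P.card * K := by
        rw [Finset.sum_add_distrib, ← Finset.sum_filter, Finset.sum_const, Finset.sum_const,
          nsmul_eq_mul, nsmul_eq_mul]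
    _ ≤ γ * c.P.card * (17 / 16 * c.Q) + c.P.card * K := by
        have h1 : (c.P.filter (fun p => p ∈ c.B)).card ≤ c.B.card :=
          Finset.card_le_card fun p hp => (Finset.mem_filter.1 hp).2
        have h2 : ((c.P.filter (fun p => p ∈ c.B)).card : ℝ) ≤ γ * c.P.card :=
          le_trans (by exact_mod_cast h1) hB
        have := mul_le_mul_of_nonneg_right h2 (show 0 ≤ 17 / 16 * (c.Q : ℝ) by positivity)
        linarith

lemma gamma_pos (hc : c.Good) {γ : ℝ} (h : 4000 ≤ γ * (8 * c.m)) : 0 < γ := by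
  have := hc.mR
  by_contra h'
  push Not at h'
  nlinarith

lemma QM_le (hc : c.Good) {γ : ℝ} (h : 4000 ≤ γ * (8 * c.m)) :
    2700 * (c.Q : ℝ) / (8 * c.m) ≤ 27 / 40 * γ * c.Q := by
  have h1 := hc.mR
  have h2 := hc.QR
  rw [div_le_iff₀ (by positivity)]
  nlinarith

theorem base (hvar : S_var_le) (hmem : S_mate_mem) (hnear : S_mate_near) : S_base := by
  intro c hc u hu huQ hs γ hγM hB
  have hγ := gamma_pos hc hγM
  have hQ := hc.QR
  have hE := hc.hE
  have hcard : (Ioc u (2 * u)).card = u := by rw [Nat.card_Ioc]; omega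
  have h1 := count_le hc (K := 27 / 40 * γ * c.Q) hB (by positivity)
    (fun s => (c.pop (2 * u) s : ℝ) < u * c.E / (32 * c.Q)) (by
      intro p hp hpB
      refine le_trans ?_ (QM_le hc hγM)
      refine le_trans ?_ (few_low hvar hc hp hpB (hs p hp hpB) (by rw [hcard]; exact hu))
      rw [hcard]
      have h2 : (Ico 1 p).filter (fun t => (c.pop (2 * u) ⟨p, t⟩ : ℝ) < u * c.E / (32 * c.Q)) ⊆
          (Ico 1 p).filter (fun t => c.V (Ioc u (2 * u)) p t < u * c.E / (32 * c.Q)) := by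
        intro t ht
        obtain ⟨ht1, ht2⟩ := Finset.mem_filter.1 ht
        refine Finset.mem_filter.2 ⟨ht1, lt_of_le_of_lt ?_ ht2⟩
        have h3 := V_le_pop hmem hnear hc hp ht1 (W := Ioc u (2 * u)) (w := 2 * u) (by omega)
          (fun x hx => (Finset.mem_Ioc.1 hx).2)
        push_cast at h3
        exact h3
      exact_mod_cast Finset.card_le_card h2)
  refine h1.trans ?_
  have h3 := card_F_lower hc
  have h4 : 3 * γ * ((c.P.card : ℝ) * ((c.Q : ℝ) - 1)) ≤ 3 * γ * c.F.card :=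
    mul_le_mul_of_nonneg_left h3 (by positivity)
  refine le_trans ?_ h4
  have h5 : 0 ≤ γ * c.P.card := by have := hc.card_pos; positivity
  nlinarith

/-! ### The key inequality -/

section key

variable (c) in
/-- The weighted number of partners in an exceptional set. -/
noncomputable def Vx (W : Finset ℕ) (X : Finset Pt) (p t : ℕ) : ℝ :=
  ∑ q ∈ c.P, if t * q % p ∈ W ∧ mate p t q ∈ X then c.f p q else 0

lemma key (hsymm : S_near) (hmem : S_mate_mem) (hnear : S_mate_near) (hgeom : S_geom)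
    (hc : c.Good) {v : ℕ} (hv : 1 ≤ v)
    (hvN : v * (8 * c.m) * c.N ≤ c.Q * c.Q) (hvQ : 2 * (v * (8 * c.m)) ≤ c.Q) {X : Finset Pt}
    {k : ℕ} (hk : 1 ≤ k) (hX : ∀ s ∈ c.F, s ∉ X → k ≤ c.pop v s) {p t : ℕ} (hp : p ∈ c.P)
    (ht : t ∈ Ico 1 p) :
    k * (c.V (c.W v) p t - Vx c (c.W v) X p t) ^ 2 ≤
      c.pop (v * (8 * c.m)) ⟨p, t⟩ * c.Coll v p t := by
  classical
  obtain ⟨ns, ntr, nmono⟩ := hsymm c
  have hm := hc.hm
  have hWle : ∀ x ∈ c.W v, x ≤ 2 * c.m * v := fun x hx => (Finset.mem_Ioc.1 hx).2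
  have hQ2 : 2 * c.m * v < c.Q := by
    have h1 : 2 * (v * (8 * c.m)) = 8 * (2 * c.m * v) := by ring
    have h2 : 0 < 2 * c.m * v := by positivity
    omega
  -- the typical partners
  set T := c.P.filter (fun q => t * q % p ∈ c.W v ∧ c.f p q ≠ 0 ∧ mate p t q ∉ X) with hT
  have hVT : c.V (c.W v) p t - Vx c (c.W v) X p t = ∑ q ∈ T, c.f p q := by
    unfold Cfg.V Vx
    rw [← Finset.sum_sub_distrib, hT, Finset.sum_filter]
    refine Finset.sum_congr rfl fun q _ => ?_
    by_cases h1 : t * q % p ∈ c.W v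
    · by_cases h2 : mate p t q ∈ X
      · rw [if_pos h1, if_pos ⟨h1, h2⟩, if_neg (fun h => h.2.2 h2), sub_self]
      · by_cases h3 : c.f p q = 0
        · rw [if_pos h1, if_neg (fun h => h2 h.2), if_neg (fun h => h.2.1 h3), h3, sub_self]
        · rw [if_pos h1, if_neg (fun h => h2 h.2), if_pos ⟨h1, h3, h2⟩, sub_zero]
    · rw [if_neg h1, if_neg (fun h => h1 h.1), if_neg (fun h => h1 h.1), sub_self]
  have hTP : ∀ q ∈ T, q ∈ c.P ∧ t * q % p ∈ c.W v ∧ c.f p q ≠ 0 ∧ mate p t q ∉ X :=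
    fun q hq => Finset.mem_filter.1 hq
  have hTF : ∀ q ∈ T, mate p t q ∈ c.F := by
    intro q hq
    obtain ⟨h1, h2, h3, h4⟩ := hTP q hq
    exact hmem c hc p hp t ht q h1 h3 (lt_of_le_of_lt (hWle _ h2) hQ2)
  -- neighbours of the typical partners
  have hG : ∀ q : ℕ, ∃ G : Finset Pt, q ∈ T →
      G ⊆ c.F.filter (fun s' => c.Near v (mate p t q) s') ∧ G.card = k := by
    intro q
    by_cases hq : q ∈ T
    · obtain ⟨h1, h2, h3, h4⟩ := hTP q hq
      have h5 := hX _ (hTF q hq) h4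
      obtain ⟨G, hG1, hG2⟩ := Finset.exists_subset_card_eq h5
      exact ⟨G, fun _ => ⟨hG1, hG2⟩⟩
    · exact ⟨∅, fun h => absurd h hq⟩
  choose G hG using hG
  set S := c.F.filter (fun s' => c.Near (v * (8 * c.m)) ⟨p, t⟩ s') with hS
  have hpop : c.pop (v * (8 * c.m)) ⟨p, t⟩ = S.card := by
    unfold Cfg.pop
    rfl
  have hGS : ∀ q ∈ T, G q ⊆ S := by
    intro q hq s hs
    obtain ⟨h1, h2, h3, h4⟩ := hTP q hq
    obtain ⟨h5, h6⟩ := Finset.mem_filter.1 ((hG q hq).1 hs)
    refine Finset.mem_filter.2 ⟨h5, ?_⟩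
    have h7 := hnear c hc p hp t ht q h1 h3 ((2 * c.m * v : ℕ) : ℝ) (by exact_mod_cast hWle _ h2)
    refine nmono _ _ _ _ ?_ (ntr _ _ _ _ _ h7 h6)
    have h8 : 2 * c.m * v + v ≤ v * (8 * c.m) := by nlinarith
    have h9 : ((2 * c.m * v + v : ℕ) : ℝ) ≤ ((v * (8 * c.m) : ℕ) : ℝ) := by exact_mod_cast h8
    push_cast at h9 ⊢
    linarith
  -- first moment
  have hfirst : (k : ℝ) * ∑ q ∈ T, c.f p q = ∑ s ∈ S, ∑ q ∈ T, if s ∈ G q then c.f p q else 0 := by
    rw [Finset.sum_comm, Finset.mul_sum]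
    refine Finset.sum_congr rfl fun q hq => ?_
    rw [← Finset.sum_filter, Finset.sum_const, nsmul_eq_mul]
    have h1 : S.filter (fun s => s ∈ G q) = G q := by
      ext s
      rw [Finset.mem_filter]
      exact ⟨fun h => h.2, fun h => ⟨hGS q hq h, h⟩⟩
    rw [h1, (hG q hq).2]
  -- second moment
  have hsecond : ∑ s ∈ S, (∑ q ∈ T, if s ∈ G q then c.f p q else 0) ^ 2 ≤ k * c.Coll v p t := by
    have h1 : ∀ s ∈ S, (∑ q ∈ T, if s ∈ G q then c.f p q else 0) ^ 2 =
        ∑ q ∈ T, ∑ r ∈ T, if s ∈ G q ∧ s ∈ G r then c.f p q * c.f p r else 0 := by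
      intro s _
      rw [sq, Finset.sum_mul_sum]
      refine Finset.sum_congr rfl fun q _ => Finset.sum_congr rfl fun r _ => ?_
      by_cases h2 : s ∈ G q
      · by_cases h3 : s ∈ G r
        · rw [if_pos h2, if_pos h3, if_pos ⟨h2, h3⟩]
        · simp [h2, h3]
      · simp [h2]
    rw [Finset.sum_congr rfl h1, Finset.sum_comm]
    have h2 : ∀ q ∈ T, ∑ s ∈ S, ∑ r ∈ T, (if s ∈ G q ∧ s ∈ G r then c.f p q * c.f p r else 0) ≤
        ∑ r ∈ T, (k : ℝ) * (if t * q % p ∈ c.W v ∧ t * r % p ∈ c.W v ∧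
          |((t * q % p : ℕ) : ℝ) - ((t * r % p : ℕ) : ℝ)| ≤ 3 * v ∧
          |(c.nn p q : ℝ) - c.nn p r| * (8 * c.m) ≤ 40 * c.N then c.f p q * c.f p r else 0) := by
      intro q hq
      rw [Finset.sum_comm]
      refine Finset.sum_le_sum fun r hr => ?_
      obtain ⟨q1, q2, q3, q4⟩ := hTP q hq
      obtain ⟨r1, r2, r3, r4⟩ := hTP r hr
      have hff : 0 ≤ c.f p q * c.f p r := mul_nonneg (hc.f0 p q) (hc.f0 p r)
      by_cases h3 : ∃ s, s ∈ G q ∧ s ∈ G r
      · obtain ⟨s, hs1, hs2⟩ := h3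
        have h4 := (Finset.mem_filter.1 ((hG q hq).1 hs1)).2
        have h5 := (Finset.mem_filter.1 ((hG r hr).1 hs2)).2
        have h6 : c.Near (2 * v) (mate p t q) (mate p t r) := by
          have h7 := ntr _ _ _ _ _ h4 (ns _ _ _ h5)
          rwa [← two_mul] at h7
        have h8 := hgeom c hc p hp t ht q q1 r r1 v q3 r3 hv hvN q2 r2 h6
        rw [if_pos ⟨q2, r2, h8⟩, ← Finset.sum_filter, Finset.sum_const, nsmul_eq_mul]
        refine mul_le_mul_of_nonneg_right ?_ hff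
        have h9 : (S.filter (fun s => s ∈ G q ∧ s ∈ G r)).card ≤ (G q).card :=
          Finset.card_le_card fun s hs => (Finset.mem_filter.1 hs).2.1
        rw [(hG q hq).2] at h9
        exact_mod_cast h9
      · have h4 : ∑ s ∈ S, (if s ∈ G q ∧ s ∈ G r then c.f p q * c.f p r else 0) = 0 := by
          refine Finset.sum_eq_zero fun s _ => ?_
          rw [if_neg (fun h => h3 ⟨s, h⟩)]
        rw [h4]
        refine mul_nonneg (Nat.cast_nonneg k) ?_
        split_ifs
        · exact hff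
        · exact le_rfl
    refine (Finset.sum_le_sum h2).trans ?_
    simp only [← Finset.mul_sum]
    refine mul_le_mul_of_nonneg_left ?_ (Nat.cast_nonneg k)
    unfold Cfg.Coll
    have hnn : ∀ q r, 0 ≤ (if t * q % p ∈ c.W v ∧ t * r % p ∈ c.W v ∧
          |((t * q % p : ℕ) : ℝ) - ((t * r % p : ℕ) : ℝ)| ≤ 3 * v ∧
          |(c.nn p q : ℝ) - c.nn p r| * (8 * c.m) ≤ 40 * c.N then c.f p q * c.f p r else 0) := by
      intro q r
      split_ifs
      · exact mul_nonneg (hc.f0 p q) (hc.f0 p r)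
      · exact le_rfl
    calc _ ≤ ∑ q ∈ T, ∑ r ∈ c.P, (if t * q % p ∈ c.W v ∧ t * r % p ∈ c.W v ∧
          |((t * q % p : ℕ) : ℝ) - ((t * r % p : ℕ) : ℝ)| ≤ 3 * v ∧
          |(c.nn p q : ℝ) - c.nn p r| * (8 * c.m) ≤ 40 * c.N then c.f p q * c.f p r else 0) :=
          Finset.sum_le_sum fun q _ => Finset.sum_le_sum_of_subset_of_nonneg
            (Finset.filter_subset _ _) fun r _ _ => hnn q r
      _ ≤ _ := Finset.sum_le_sum_of_subset_of_nonneg (Finset.filter_subset _ _)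
            fun q _ _ => Finset.sum_nonneg fun r _ => hnn q r
  -- Cauchy-Schwarz
  have hcs : (∑ s ∈ S, ∑ q ∈ T, if s ∈ G q then c.f p q else 0) ^ 2 ≤
      S.card * ∑ s ∈ S, (∑ q ∈ T, if s ∈ G q then c.f p q else 0) ^ 2 := sq_sum_le_card_mul_sum_sq
  rw [← hfirst] at hcs
  rw [hVT, hpop]
  have hk0 : (0 : ℝ) < k := by exact_mod_cast hk
  have h1 : (k : ℝ) * (k * (∑ q ∈ T, c.f p q) ^ 2) ≤ k * (S.card * c.Coll v p t) := by
    calc (k : ℝ) * (k * (∑ q ∈ T, c.f p q) ^ 2) = (k * ∑ q ∈ T, c.f p q) ^ 2 := by ring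
      _ ≤ _ := hcs
      _ ≤ S.card * (k * c.Coll v p t) := mul_le_mul_of_nonneg_left hsecond (Nat.cast_nonneg _)
      _ = _ := by ring
  exact le_of_mul_le_mul_left h1 hk0

end key

/-! ### The step -/

lemma card_W (c : Cfg) (v : ℕ) : (c.W v).card = c.m * v := by
  unfold Cfg.W
  rw [Nat.card_Ioc]
  have : 2 * c.m * v = c.m * v + c.m * v := by ring
  omega

lemma markov {ι : Type*} (S : Finset ι) (g : ι → ℝ) (hg : ∀ i ∈ S, 0 ≤ g i) (K : ℝ) :
    ((S.filter (fun i => K < g i)).card : ℝ) * K ≤ ∑ i ∈ S, g i := by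
  calc ((S.filter (fun i => K < g i)).card : ℝ) * K = ∑ i ∈ S.filter (fun i => K < g i), K := by
        rw [Finset.sum_const, nsmul_eq_mul]
    _ ≤ ∑ i ∈ S.filter (fun i => K < g i), g i :=
        Finset.sum_le_sum fun i hi => (Finset.mem_filter.1 hi).2.le
    _ ≤ _ := Finset.sum_le_sum_of_subset_of_nonneg (Finset.filter_subset _ _) fun i hi _ => hg i hi

lemma Coll_nonneg (hc : c.Good) (v p t : ℕ) : 0 ≤ c.Coll v p t := by
  unfold Cfg.Coll
  refine Finset.sum_nonneg fun q _ => Finset.sum_nonneg fun r _ => ?_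
  split_ifs
  · exact mul_nonneg (hc.f0 p q) (hc.f0 p r)
  · exact le_rfl

lemma Vx_nonneg (hc : c.Good) (W : Finset ℕ) (X : Finset Pt) (p t : ℕ) : 0 ≤ Vx c W X p t := by
  unfold Vx
  refine Finset.sum_nonneg fun q _ => ?_
  split_ifs
  · exact hc.f0 p q
  · exact le_rfl

theorem step (hvar : S_var_le) (hun : S_spec_union) (hsymm : S_near) (hmem : S_mate_mem)
    (hnear : S_mate_near) (hgeom : S_geom) (hexc : S_exc) (hcoll : S_coll) : S_step := by
  classical
  intro c hc v hv hvN hvQ hs γ A hγ hγM hB hpop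
  have hQ := hc.QR
  have hE := hc.hE
  have hm := hc.mR
  have hPc := hc.card_pos
  have hvR : (1 : ℝ) ≤ v := by exact_mod_cast hv
  rcases le_or_gt A 0 with hA | hA
  · have h1 : c.F.filter (fun s => (c.pop (v * (8 * c.m)) s : ℝ) <
        γ * A * (8 * c.m) ^ 2 / (3 * 10 ^ 8)) = ∅ := by
      refine Finset.filter_eq_empty_iff.2 fun s _ h => ?_
      have h2 : γ * A * (8 * c.m) ^ 2 / (3 * 10 ^ 8) ≤ 0 := by
        refine div_nonpos_of_nonpos_of_nonneg ?_ (by norm_num)
        exact mul_nonpos_of_nonpos_of_nonneg (mul_nonpos_of_nonneg_of_nonpos hγ.le hA)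
          (by positivity)
      have h3 : (0 : ℝ) ≤ (c.pop (v * (8 * c.m)) s : ℝ) := Nat.cast_nonneg _
      linarith
    rw [h1, Finset.card_empty, Nat.cast_zero]
    positivity
  -- the exceptional points
  set X := c.F.filter (fun s => (c.pop v s : ℝ) < A) with hX
  have hXF : X ⊆ c.F := Finset.filter_subset _ _
  set k := ⌈A⌉₊ with hk
  have hk1 : 1 ≤ k := Nat.one_le_ceil_iff.2 hA
  have hkA : A ≤ k := Nat.le_ceil A
  have hkX : ∀ s ∈ c.F, s ∉ X → k ≤ c.pop v s := by
    intro s hs hsX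
    refine Nat.ceil_le.2 ?_
    by_contra h
    exact hsX (Finset.mem_filter.2 ⟨hs, not_le.1 h⟩)
  have hQ2 : 2 * c.m * v < c.Q := by
    have h0 := hc.hm
    have h1 : 2 * (v * (8 * c.m)) = 8 * (2 * c.m * v) := by ring
    have h2 : 0 < 2 * c.m * v := by positivity
    omega
  have hWlt : ∀ w ∈ c.W v, 1 ≤ w ∧ w < c.Q := by
    intro w hw
    obtain ⟨h1, h2⟩ := Finset.mem_Ioc.1 hw
    exact ⟨by omega, by omega⟩
  have hWs : ∀ p ∈ c.P, p ∉ c.B → Spec p (c.W v) c.κ := fun p hp hpB =>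
    hun p c.m v c.κ (hs p hp hpB)
  have hWc : ((c.W v).card : ℝ) = c.m * v := by rw [card_W]; push_cast; ring
  set w : ℝ := ((c.W v).card : ℝ) with hw
  have hw0 : 0 < w := by rw [hWc]; positivity
  have hw1 : 1 ≤ (c.W v).card := by
    have : (0 : ℝ) < ((c.W v).card : ℝ) := hw0
    exact_mod_cast this
  -- the partners in the exceptional set
  have hexc' : ∑ s ∈ c.F, Vx c (c.W v) X s.1 s.2 ≤ 431 / 100 * γ * c.P.card * (w * c.E) := by
    have h1 := hexc c hc (c.W v) hWlt hWs X hXF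
    refine h1.trans ?_
    have h2 : Real.sqrt (5 * X.card * c.P.card / c.Q) ≤ 231 / 100 * γ * c.P.card := by
      rw [Real.sqrt_le_left (by positivity), div_le_iff₀ (by positivity)]
      have h3 := card_F_upper hc
      have h4 : (X.card : ℝ) ≤ γ ^ 2 * (c.P.card * (17 / 16 * c.Q)) :=
        hpop.trans (mul_le_mul_of_nonneg_left h3 (by positivity))
      have h5 : 5 * (X.card : ℝ) * c.P.card ≤ 5 * (γ ^ 2 * (c.P.card * (17 / 16 * c.Q))) * c.P.card := by
        gcongr
      refine h5.trans ?_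
      have h6 : 0 ≤ γ ^ 2 * (c.P.card : ℝ) ^ 2 * c.Q := by positivity
      nlinarith
    have h3 : 2 * c.E * w * c.B.card ≤ 2 * c.E * w * (γ * c.P.card) :=
      mul_le_mul_of_nonneg_left hB (by positivity)
    have h4 : Real.sqrt (5 * X.card * c.P.card / c.Q) * (w * c.E) ≤
        231 / 100 * γ * c.P.card * (w * c.E) := mul_le_mul_of_nonneg_right h2 (by positivity)
    calc _ ≤ 2 * c.E * w * (γ * c.P.card) + 231 / 100 * γ * c.P.card * (w * c.E) :=
          add_le_add h3 h4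
      _ = _ := by ring
  -- first kind of atypical points
  have hD3 : ((c.F.filter (fun s => w * c.E / (64 * c.Q) < Vx c (c.W v) X s.1 s.2)).card : ℝ) ≤
      276 * γ * c.P.card * c.Q := by
    have h1 := markov c.F (fun s => Vx c (c.W v) X s.1 s.2)
      (fun s _ => Vx_nonneg hc _ _ _ _) (w * c.E / (64 * c.Q))
    have h2 := h1.trans hexc'
    have h3 : 431 / 100 * γ * c.P.card * (w * c.E) ≤
        276 * γ * c.P.card * c.Q * (w * c.E / (64 * c.Q)) := by
      have h4 : 276 * γ * c.P.card * c.Q * (w * c.E / (64 * c.Q)) =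
          276 / 64 * γ * c.P.card * (w * c.E) := by field_simp
      rw [h4]
      refine mul_le_mul_of_nonneg_right ?_ (by positivity)
      refine mul_le_mul_of_nonneg_right ?_ (by positivity)
      refine mul_le_mul_of_nonneg_right ?_ (by positivity)
      norm_num
    exact le_of_mul_le_mul_right (h2.trans h3) (by positivity)
  -- second kind of atypical points
  set K : ℝ := 1000 * (v : ℝ) ^ 2 * c.E ^ 2 / (γ * (c.Q : ℝ) ^ 2) with hK
  have hK0 : 0 < K := by rw [hK]; positivity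
  set r : Pt → Prop := fun s => s.1 ∈ c.B ∨ c.V (c.W v) s.1 s.2 < w * c.E / (32 * c.Q) ∨
    K < c.Coll v s.1 s.2 with hr
  have hD1 : ((c.F.filter r).card : ℝ) ≤ 3 * γ * c.P.card * c.Q := by
    have h1 := count_le hc (K := 67 / 40 * γ * c.Q) hB (by positivity) r (by
      intro p hp hpB
      have h2 : (Ico 1 p).filter (fun t => r ⟨p, t⟩) ⊆
          (Ico 1 p).filter (fun t => c.V (c.W v) p t < w * c.E / (32 * c.Q)) ∪
            (Ico 1 p).filter (fun t => K < c.Coll v p t) := by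
        intro t ht
        obtain ⟨h3, h4⟩ := Finset.mem_filter.1 ht
        rcases h4 with h4 | h4 | h4
        · exact absurd h4 hpB
        · exact Finset.mem_union_left _ (Finset.mem_filter.2 ⟨h3, h4⟩)
        · exact Finset.mem_union_right _ (Finset.mem_filter.2 ⟨h3, h4⟩)
      have h3 : (((Ico 1 p).filter (fun t => r ⟨p, t⟩)).card : ℝ) ≤
          (((Ico 1 p).filter (fun t => c.V (c.W v) p t < w * c.E / (32 * c.Q))).card : ℝ) +
            (((Ico 1 p).filter (fun t => K < c.Coll v p t)).card : ℝ) := by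
        exact_mod_cast (Finset.card_le_card h2).trans (Finset.card_union_le _ _)
      have h4 := (few_low hvar hc hp hpB (hWs p hp hpB) hw1).trans (QM_le hc hγM)
      have h5 : (((Ico 1 p).filter (fun t => K < c.Coll v p t)).card : ℝ) ≤ γ * c.Q := by
        have h6 := (markov (Ico 1 p) (fun t => c.Coll v p t)
          (fun t _ => Coll_nonneg hc _ _ _) K).trans (hcoll c hc p hp hpB v hv hvQ (hs p hp hpB))
        have h7 : 1000 * (v : ℝ) ^ 2 * c.E ^ 2 / c.Q = γ * c.Q * K := by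
          rw [hK]; field_simp
        rw [h7] at h6
        exact le_of_mul_le_mul_right h6 hK0
      linarith)
    refine h1.trans ?_
    have h5 : 0 ≤ γ * c.P.card * c.Q := by positivity
    nlinarith
  -- the typical points
  have hsub : c.F.filter (fun s => (c.pop (v * (8 * c.m)) s : ℝ) <
      γ * A * (8 * c.m) ^ 2 / (3 * 10 ^ 8)) ⊆
      c.F.filter (fun s => w * c.E / (64 * c.Q) < Vx c (c.W v) X s.1 s.2) ∪ c.F.filter r := by
    intro s hs
    obtain ⟨hsF, hs2⟩ := Finset.mem_filter.1 hs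
    by_contra hnot
    rw [Finset.mem_union, not_or, Finset.mem_filter, Finset.mem_filter] at hnot
    obtain ⟨n1, n2⟩ := hnot
    have n3 : Vx c (c.W v) X s.1 s.2 ≤ w * c.E / (64 * c.Q) := by
      by_contra h; exact n1 ⟨hsF, not_le.1 h⟩
    have n4 : w * c.E / (32 * c.Q) ≤ c.V (c.W v) s.1 s.2 := by
      by_contra h; exact n2 ⟨hsF, Or.inr (Or.inl (not_le.1 h))⟩
    have n5 : c.Coll v s.1 s.2 ≤ K := by
      by_contra h; exact n2 ⟨hsF, Or.inr (Or.inr (not_le.1 h))⟩
    obtain ⟨hp, ht1, ht2⟩ := mem_F.1 hsF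
    have hkey := key hsymm hmem hnear hgeom hc hv hvN hvQ hk1 hkX hp (Finset.mem_Ico.2 ⟨ht1, ht2⟩)
    have h1 : w * c.E / (64 * c.Q) ≤ c.V (c.W v) s.1 s.2 - Vx c (c.W v) X s.1 s.2 := by
      have h2 : w * c.E / (32 * c.Q) = 2 * (w * c.E / (64 * c.Q)) := by field_simp; norm_num
      linarith
    have h2 : A * (w * c.E / (64 * c.Q)) ^ 2 ≤ (c.pop (v * (8 * c.m)) s : ℝ) * K := by
      calc A * (w * c.E / (64 * c.Q)) ^ 2
          ≤ k * (c.V (c.W v) s.1 s.2 - Vx c (c.W v) X s.1 s.2) ^ 2 := by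
            refine mul_le_mul hkA (pow_le_pow_left₀ (by positivity) h1 2) (by positivity)
              (Nat.cast_nonneg _)
        _ ≤ _ := hkey
        _ ≤ (c.pop (v * (8 * c.m)) s : ℝ) * K :=
            mul_le_mul_of_nonneg_left n5 (Nat.cast_nonneg _)
    have h3 : A * (w * c.E / (64 * c.Q)) ^ 2 =
        (γ * A * (8 * c.m) ^ 2 / (64 * 64 * 64 * 1000)) * K := by
      rw [hK, hWc]
      field_simp
      ring
    have h4 : γ * A * (8 * c.m) ^ 2 / (3 * 10 ^ 8) ≤
        γ * A * (8 * c.m) ^ 2 / (64 * 64 * 64 * 1000) := by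
      refine div_le_div_of_nonneg_left (by positivity) (by norm_num) (by norm_num)
    rw [h3] at h2
    have h5 := le_of_mul_le_mul_right h2 hK0
    linarith
  have h1 : ((c.F.filter (fun s => (c.pop (v * (8 * c.m)) s : ℝ) <
      γ * A * (8 * c.m) ^ 2 / (3 * 10 ^ 8))).card : ℝ) ≤ 279 * γ * c.P.card * c.Q := by
    have h2 := (Finset.card_le_card hsub).trans (Finset.card_union_le _ _)
    have h3 : ((c.F.filter (fun s => (c.pop (v * (8 * c.m)) s : ℝ) <
      γ * A * (8 * c.m) ^ 2 / (3 * 10 ^ 8))).card : ℝ) ≤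
      ((c.F.filter (fun s => w * c.E / (64 * c.Q) < Vx c (c.W v) X s.1 s.2)).card : ℝ) +
        ((c.F.filter r).card : ℝ) := by exact_mod_cast h2
    linarith
  refine h1.trans ?_
  have h3 := card_F_lower hc
  have h4 : 300 * γ * ((c.P.card : ℝ) * ((c.Q : ℝ) - 1)) ≤ 300 * γ * c.F.card :=
    mul_le_mul_of_nonneg_left h3 (by positivity)
  refine le_trans ?_ h4
  have h5 : 0 ≤ γ * c.P.card := by positivity
  nlinarith

end Pool.Agent.Helper69.TS
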