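import Mathlib
import Pool.Agent.Helper69.TS.Step
import Pool.Agent.Helper69.TS.Core
import Pool.Agent.Helper69.TS.MainInt
import Pool.Agent.Helper69.TS.MainReal
import Pool.Agent.Helper94.TS.lsieve
import Pool.Agent.Helper94.TS.csieve
import Pool.Agent.Helper94.TS.spec_bad
import Pool.Agent.Helper7.TS.spec_of_char
import Pool.Agent.Helper7.TS.exc
import Pool.Agent.Helper56.TS.coll
import Pool.Agent.Helper90.TS.sumpop
import Pool.Agent.Helper95.TS.geom
import Pool.Agent.Helper12.TS.build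
import Pool.Agent.Helper30.TS.use

/-!
# Assembly of the modules
-/

set_option autoImplicit false

open Finset Filter Topology Pool.Agent.Helper73.RK

namespace Pool.Agent.Helper69.TS

theorem s_spec_bad : S_spec_bad :=
  Pool.Agent.Helper94.TS.spec_bad.spec_bad
    (Pool.Agent.Helper94.TS.csieve.csieve Pool.Agent.Helper94.TS.lsieve.lsieve)
    (fun p W κ hp hκ hW hχ =>
      Pool.Agent.Helper7.TS.spec_of_char.spec_of_char p W κ hp hκ hW hχ)

theorem s_exc : S_exc :=
  Pool.Agent.Helper7.TS.exc.exc Pool.Agent.Helper30.TS.use.sum_V Pool.Agent.Helper30.TS.use.sq_le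

theorem s_coll : S_coll :=
  Pool.Agent.Helper56.TS.coll.coll Pool.Agent.Helper30.TS.use.sq_le

theorem s_base : S_base :=
  base Pool.Agent.Helper30.TS.use.var_le Pool.Agent.Helper95.TS.s_mate_mem
    Pool.Agent.Helper95.TS.s_mate_near

theorem s_step : S_step :=
  step Pool.Agent.Helper30.TS.use.var_le Pool.Agent.Helper30.TS.use.spec_union
    Pool.Agent.Helper95.TS.s_near Pool.Agent.Helper95.TS.s_mate_mem
    Pool.Agent.Helper95.TS.s_mate_near Pool.Agent.Helper95.TS.s_geom s_exc s_coll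

theorem s_core : S_core := core s_base s_step Pool.Agent.Helper90.TS.sumpop.sumpop

theorem s_main_int : S_main_int :=
  main_int s_spec_bad s_core Pool.Agent.Helper12.TS.build.interval
    Pool.Agent.Helper12.TS.build.light_le Pool.Agent.Helper12.TS.build.build_good

/-- **A third of the gap.** -/
theorem main (α η : ℝ) (l : ℕ) (hα1 : 1 / 2 < α) (hα2 : α < 1)
    (hη : 0 ≤ η) (hl : 1 ≤ l) (h1 : l * η < α) (h2 : 2 * η + α / l < 2 * α - 1) :
    ∀ᶠ N : ℕ in atTop, ∀ a : ℕ → ℤ,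
      (N : ℝ) ^ (2 - 2 * α + η) ≤
        (N7c497599.sievedCard N a ((N : ℝ) ^ α) (2 * (N : ℝ) ^ α) : ℝ) :=
  main_real s_main_int α η l hα1 hα2 hη hl h1 h2

/-- A closed form valid for every exponent. -/
theorem main_closed (α : ℝ) (hα1 : 1 / 2 < α) (hα2 : α < 1) :
    ∀ᶠ N : ℕ in atTop, ∀ a : ℕ → ℤ,
      (N : ℝ) ^ (2 - 2 * α + α * (2 * α - 1) / (5 * α - 1)) ≤
        (N7c497599.sievedCard N a ((N : ℝ) ^ α) (2 * (N : ℝ) ^ α) : ℝ) := by
  have h0 : 0 < 2 * α - 1 := by linarith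
  have h5 : 0 < 5 * α - 1 := by linarith
  have hα0 : 0 < α := by linarith
  obtain ⟨l, hl⟩ : ∃ l : ℕ, l = ⌈3 * α / (2 * α - 1)⌉₊ := ⟨_, rfl⟩
  have hpos : 0 < 3 * α / (2 * α - 1) := by positivity
  have l1 : 3 * α / (2 * α - 1) ≤ l := by rw [hl]; exact Nat.le_ceil _
  have l2 : (l : ℝ) < 3 * α / (2 * α - 1) + 1 := by
    rw [hl]; exact Nat.ceil_lt_add_one hpos.le
  have hl0 : (0 : ℝ) < l := lt_of_lt_of_le hpos l1
  have hl1 : 1 ≤ l := by
    have : 0 < l := by exact_mod_cast hl0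
    omega
  have e1 : 3 * α / (2 * α - 1) + 1 = (5 * α - 1) / (2 * α - 1) := by
    rw [div_add_one h0.ne']
    congr 1
    ring
  refine main α _ l hα1 hα2 (by positivity) hl1 ?_ ?_
  · rw [← mul_div_assoc, div_lt_iff₀ h5]
    have h6 : l * (2 * α - 1) < 5 * α - 1 := by
      rw [e1, lt_div_iff₀ h0] at l2
      exact l2
    nlinarith
  · have h6 : 3 * α ≤ l * (2 * α - 1) := by
      rw [div_le_iff₀ h0] at l1
      exact l1
    have h7 : α / l ≤ (2 * α - 1) / 3 := by
      rw [div_le_div_iff₀ hl0 (by norm_num)]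
      linarith
    have h8 : α * (2 * α - 1) / (5 * α - 1) < (2 * α - 1) / 3 := by
      rw [div_lt_div_iff₀ h5 (by norm_num)]
      nlinarith
    linarith

end Pool.Agent.Helper69.TS
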